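import Mathlib

set_option autoImplicit false

namespace Pool.Agent.T9h71.KF

open Finset

section Abstract

variable {H : Type*} [NormedAddCommGroup H] [InnerProductSpace ℂ H] [FiniteDimensional ℂ H]

/-- if all eigenvalues of a symmetric operator are at most `c`, so is its quadratic form -/
lemma quad_le_of_eigen (T : H →ₗ[ℂ] H) (hT : T.IsSymmetric) (c : ℝ)
    (h : ∀ (μ : ℝ) (v : H), v ≠ 0 → T v = (μ : ℂ) • v → μ ≤ c) (f : H) :
    (inner ℂ f (T f)).re ≤ c * ‖f‖ ^ 2 := by
  set b := hT.eigenvectorBasis rfl with hbdef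
  have hb : ∀ i, T (b i) = ((hT.eigenvalues rfl i : ℝ) : ℂ) • b i := hT.apply_eigenvectorBasis rfl
  have hle : ∀ i, hT.eigenvalues rfl i ≤ c := fun i => h _ (b i) (b.orthonormal.ne_zero i) (hb i)
  have h1 : inner ℂ f (T f) =
      ∑ i, (((hT.eigenvalues rfl i) * ‖inner ℂ (b i) f‖ ^ 2 : ℝ) : ℂ) := by
    rw [← b.sum_inner_mul_inner f (T f)]
    refine Finset.sum_congr rfl fun i _ => ?_
    have e1 : inner ℂ (b i) (T f) = ((hT.eigenvalues rfl i : ℝ) : ℂ) * inner ℂ (b i) f := by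
      rw [← hT (b i) f, hb i, inner_smul_left, Complex.conj_ofReal]
    have e2 : inner ℂ f (b i) * inner ℂ (b i) f = ((‖inner ℂ (b i) f‖ ^ 2 : ℝ) : ℂ) := by
      rw [← inner_conj_symm f (b i), ← Complex.normSq_eq_conj_mul_self, Complex.normSq_eq_norm_sq]
    rw [e1, Complex.ofReal_mul, ← e2]
    ring
  have h2 : ‖f‖ ^ 2 = ∑ i, ‖inner ℂ (b i) f‖ ^ 2 := (b.sum_sq_norm_inner_right f).symm
  rw [h1, Complex.re_sum, h2, Finset.mul_sum]
  refine Finset.sum_le_sum fun i _ => ?_
  rw [Complex.ofReal_re]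
  exact mul_le_mul_of_nonneg_right (hle i) (by positivity)

/-- an operator which together with its adjoint preserves a subspace commutes with the projection -/
lemma proj_comm (N : Submodule ℂ H) (T : H →ₗ[ℂ] H) (h1 : ∀ f ∈ N, T f ∈ N)
    (h2 : ∀ f ∈ N, LinearMap.adjoint T f ∈ N) (f : H) :
    N.starProjection (T f) = T (N.starProjection f) := by
  refine Submodule.eq_starProjection_of_mem_orthogonal (h1 _ (Submodule.starProjection_apply_mem N f)) ?_
  rw [← map_sub, Submodule.mem_orthogonal]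
  intro u hu
  rw [← LinearMap.adjoint_inner_left]
  exact (Submodule.mem_orthogonal _ _).1 (Submodule.sub_starProjection_mem_orthogonal f) _ (h2 u hu)

lemma inner_sub_proj (N : Submodule ℂ H) (f : H) :
    (inner ℂ f (f - N.starProjection f)).re = ‖f - N.starProjection f‖ ^ 2 := by
  have h0 : inner ℂ (N.starProjection f) (f - N.starProjection f) = 0 :=
    (Submodule.mem_orthogonal _ _).1 (Submodule.sub_starProjection_mem_orthogonal f) _
      (Submodule.starProjection_apply_mem N f)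
  have h1 : inner ℂ f (f - N.starProjection f) =
      inner ℂ (f - N.starProjection f) (f - N.starProjection f) := by
    conv_rhs => rw [inner_sub_left, h0, sub_zero]
  rw [h1, inner_self_eq_norm_sq_to_K]
  norm_cast

theorem abstract_bound {J : Type*} [Fintype J] (𝓐 : Submodule ℂ H) (N : J → Submodule ℂ H)
    (hN : ∀ j, N j ≤ 𝓐) (c : J → ℝ) (hc : ∀ j, 0 ≤ c j) (G : Set (H →ₗ[ℂ] H))
    (hGadj : ∀ T ∈ G, LinearMap.adjoint T ∈ G)
    (hGA : ∀ T ∈ G, ∀ f ∈ 𝓐, T f ∈ 𝓐) (hGN : ∀ T ∈ G, ∀ j, ∀ f ∈ N j, T f ∈ N j) (h : ℝ)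
    (hU : ∀ U : Submodule ℂ H, U ≤ 𝓐 → U ≠ ⊥ → (∀ T ∈ G, ∀ f ∈ U, T f ∈ U) →
      ∃ u ∈ U, u ≠ 0 ∧ ∃ J' : Finset J, (∀ j ∉ J', u ∈ N j) ∧ ∑ j ∈ J', c j ≤ h)
    (f : H) (hf : f ∈ 𝓐) : ∑ j, c j * ‖f - (N j).starProjection f‖ ^ 2 ≤ h * ‖f‖ ^ 2 := by
  classical
  let D : H →ₗ[ℂ] H := ∑ j, ((c j : ℝ) : ℂ) • (LinearMap.id - (N j).starProjection.toLinearMap)
  have hDapp : ∀ g, D g = ∑ j, ((c j : ℝ) : ℂ) • (g - (N j).starProjection g) := by
    intro g
    simp [D, LinearMap.sum_apply]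
  have hDA : ∀ g ∈ 𝓐, D g ∈ 𝓐 := by
    intro g hg
    rw [hDapp]
    refine Submodule.sum_mem _ fun j _ => Submodule.smul_mem _ _ (Submodule.sub_mem _ hg ?_)
    exact hN j (Submodule.starProjection_apply_mem (N j) g)
  have hDsym : D.IsSymmetric := by
    intro x y
    rw [hDapp, hDapp, sum_inner, inner_sum]
    refine Finset.sum_congr rfl fun j _ => ?_
    rw [inner_smul_left, inner_smul_right, Complex.conj_ofReal, inner_sub_left, inner_sub_right,
      Submodule.inner_starProjection_left_eq_right]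
  have hDquad : ∀ g, (inner ℂ g (D g)).re = ∑ j, c j * ‖g - (N j).starProjection g‖ ^ 2 := by
    intro g
    rw [hDapp, inner_sum, Complex.re_sum]
    refine Finset.sum_congr rfl fun j _ => ?_
    rw [inner_smul_right, Complex.re_ofReal_mul, inner_sub_proj]
  have hDcomm : ∀ T ∈ G, ∀ g, D (T g) = T (D g) := by
    intro T hT g
    rw [hDapp, hDapp, map_sum]
    refine Finset.sum_congr rfl fun j _ => ?_
    rw [map_smul, map_sub, proj_comm (N j) T (hGN T hT j) (hGN _ (hGadj T hT) j) g]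
  have hTsym : (D.restrict hDA).IsSymmetric := fun x y => hDsym x y
  have key := quad_le_of_eigen (D.restrict hDA) hTsym h ?_ ⟨f, hf⟩
  · have e1 : (inner ℂ (⟨f, hf⟩ : 𝓐) ((D.restrict hDA) ⟨f, hf⟩)) = inner ℂ f (D f) := rfl
    rw [e1, hDquad] at key
    exact key
  · intro μ v hv hDv
    have hDv' : D (v : H) = (μ : ℂ) • (v : H) := by
      have := congrArg (Subtype.val) hDv
      simpa using this
    let U : Submodule ℂ H := 𝓐 ⊓ LinearMap.ker (D - (μ : ℂ) • LinearMap.id)
    have hmemU : ∀ g, g ∈ U ↔ g ∈ 𝓐 ∧ D g = (μ : ℂ) • g := by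
      intro g
      simp [U, LinearMap.mem_ker, sub_eq_zero]
    obtain ⟨u, huU, hu0, J', hJ', hsum⟩ := hU U inf_le_left (by
      intro hbot
      have : (v : H) ∈ U := (hmemU _).2 ⟨v.2, hDv'⟩
      rw [hbot, Submodule.mem_bot] at this
      exact hv (Subtype.ext this)) (by
      intro T hT g hg
      obtain ⟨h1, h2⟩ := (hmemU g).1 hg
      refine (hmemU _).2 ⟨hGA T hT g h1, ?_⟩
      rw [hDcomm T hT, h2, map_smul])
    have h3 := ((hmemU u).1 huU).2
    have h4 : μ * ‖u‖ ^ 2 = ∑ j, c j * ‖u - (N j).starProjection u‖ ^ 2 := by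
      rw [← hDquad, h3, inner_smul_right, Complex.re_ofReal_mul, inner_self_eq_norm_sq_to_K]
      norm_cast
    have h5 : ∑ j, c j * ‖u - (N j).starProjection u‖ ^ 2 ≤ h * ‖u‖ ^ 2 := by
      calc ∑ j, c j * ‖u - (N j).starProjection u‖ ^ 2
          = ∑ j ∈ J', c j * ‖u - (N j).starProjection u‖ ^ 2 := by
            symm
            refine Finset.sum_subset (Finset.subset_univ _) fun j _ hj => ?_
            rw [Submodule.starProjection_eq_self_iff.2 (hJ' j hj)]
            simp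
        _ ≤ ∑ j ∈ J', c j * ‖u‖ ^ 2 := by
            refine Finset.sum_le_sum fun j _ => mul_le_mul_of_nonneg_left ?_ (hc j)
            have : ‖u - (N j).starProjection u‖ ≤ ‖u‖ := by
              have h7 : u - (N j).starProjection u = (N j)ᗮ.starProjection u := by
                rw [Submodule.starProjection_orthogonal_val]
              rw [h7]
              exact Submodule.norm_starProjection_apply_le _ u
            gcongr
        _ = (∑ j ∈ J', c j) * ‖u‖ ^ 2 := by rw [Finset.sum_mul]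
        _ ≤ h * ‖u‖ ^ 2 := by gcongr
    have hupos : 0 < ‖u‖ ^ 2 := by
      have := norm_pos_iff.2 hu0
      positivity
    rw [← h4] at h5
    exact le_of_mul_le_mul_right h5 hupos

end Abstract

end Pool.Agent.T9h71.KF
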