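import Mathlib

set_option autoImplicit false

namespace Pool.Agent.T9h71.KF

open Finset Matrix

variable {t : ℕ} {ι : Type} [Fintype ι] [DecidableEq ι]

/-- the tensor product operator with slot operators `A a` -/
def tau (A : Fin t → Matrix ι ι ℂ) : Matrix (Fin t → ι) (Fin t → ι) ℂ :=
  fun x y => ∏ a, A a (x a) (y a)

lemma tau_apply (A : Fin t → Matrix ι ι ℂ) (x y : Fin t → ι) :
    tau A x y = ∏ a, A a (x a) (y a) := rfl

lemma tau_mul (A B : Fin t → Matrix ι ι ℂ) : tau A * tau B = tau (fun a => A a * B a) := by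
  ext x z
  rw [Matrix.mul_apply, tau_apply]
  simp only [Matrix.mul_apply, tau_apply]
  rw [Finset.prod_univ_sum, Fintype.piFinset_univ]
  exact Finset.sum_congr rfl fun y _ => (Finset.prod_mul_distrib).symm

lemma tau_one : tau (fun _ : Fin t => (1 : Matrix ι ι ℂ)) = 1 := by
  ext x y
  rw [tau_apply]
  by_cases h : x = y
  · subst h; simp
  · rw [Matrix.one_apply_ne h]
    obtain ⟨a, ha⟩ := Function.ne_iff.1 h
    exact Finset.prod_eq_zero (Finset.mem_univ a) (Matrix.one_apply_ne ha)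

lemma tau_conjTranspose (A : Fin t → Matrix ι ι ℂ) :
    (tau A)ᴴ = tau (fun a => (A a)ᴴ) := by
  ext x y
  simp [Matrix.conjTranspose_apply, tau_apply, map_prod]

lemma tau_zero_slot (A : Fin t → Matrix ι ι ℂ) (a : Fin t) (h : A a = 0) : tau A = 0 := by
  ext x y
  rw [tau_apply, Matrix.zero_apply]
  exact Finset.prod_eq_zero (Finset.mem_univ a) (by rw [h, Matrix.zero_apply])

lemma tau_add (A B : Fin t → Matrix ι ι ℂ) :
    tau (fun a => A a + B a) =
      ∑ S : Finset (Fin t), tau (fun a => if a ∈ S then A a else B a) := by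
  ext x y
  rw [tau_apply, Matrix.sum_apply]
  simp only [Matrix.add_apply, tau_apply]
  rw [Finset.prod_add, Finset.powerset_univ]
  refine Finset.sum_congr rfl fun S _ => ?_
  rw [← Finset.prod_mul_prod_compl S (fun a => (if a ∈ S then A a else B a) (x a) (y a))]
  congr 1
  · exact Finset.prod_congr rfl fun a ha => by rw [if_pos ha]
  · rw [← Finset.compl_eq_univ_sdiff]
    exact Finset.prod_congr rfl fun a ha => by rw [if_neg (Finset.mem_compl.1 ha)]

/-- antisymmetric functions -/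
def Anti (f : (Fin t → ι) → ℂ) : Prop :=
  ∀ (σ : Equiv.Perm (Fin t)) (x : Fin t → ι), f (x ∘ σ) = ((Equiv.Perm.sign σ : ℤ) : ℂ) * f x

lemma tau_perm (A : Fin t → Matrix ι ι ℂ) (f : (Fin t → ι) → ℂ) (hf : Anti f)
    (σ : Equiv.Perm (Fin t)) (hA : ∀ a, A (σ a) = A a) (x : Fin t → ι) :
    (tau A *ᵥ f) (x ∘ σ) = ((Equiv.Perm.sign σ : ℤ) : ℂ) * (tau A *ᵥ f) x := by
  simp only [Matrix.mulVec, dotProduct]
  rw [Finset.mul_sum]
  rw [← (Equiv.arrowCongr σ.symm (Equiv.refl ι)).sum_comp]
  refine Finset.sum_congr rfl fun y _ => ?_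
  have e1 : (Equiv.arrowCongr σ.symm (Equiv.refl ι)) y = y ∘ σ := by
    ext a; simp [Equiv.arrowCongr]
  rw [e1, hf σ y, tau_apply, tau_apply]
  have e2 : ∏ a, A a ((x ∘ σ) a) ((y ∘ σ) a) = ∏ a, A a (x a) (y a) := by
    rw [← Equiv.prod_comp σ (fun a => A a (x a) (y a))]
    exact Finset.prod_congr rfl fun a _ => by rw [hA]; rfl
  rw [e2]
  ring

/-- permutation-invariant slot operators preserve antisymmetry -/
lemma anti_tau_const (A : Matrix ι ι ℂ) (f : (Fin t → ι) → ℂ) (hf : Anti f) :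
    Anti (tau (fun _ => A) *ᵥ f) := fun σ x => tau_perm _ f hf σ (fun _ => rfl) x

/-- an antisymmetric function vanishes at points with a repetition -/
lemma anti_zero_of_eq (f : (Fin t → ι) → ℂ) (x : Fin t → ι) (a b : Fin t) (hab : a ≠ b)
    (hx : x a = x b) (hf : f (x ∘ Equiv.swap a b) =
      ((Equiv.Perm.sign (Equiv.swap a b) : ℤ) : ℂ) * f x) : f x = 0 := by
  have e : x ∘ Equiv.swap a b = x := by
    ext c
    simp only [Function.comp]
    by_cases h1 : c = a
    · subst h1; rw [Equiv.swap_apply_left, hx]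
    · by_cases h2 : c = b
      · subst h2; rw [Equiv.swap_apply_right, hx]
      · rw [Equiv.swap_apply_of_ne_of_ne h1 h2]
  rw [e, Equiv.Perm.sign_swap hab] at hf
  simp at hf
  have : (2 : ℂ) * f x = 0 := by linear_combination hf
  simpa using this

end Pool.Agent.T9h71.KF
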