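import Mathlib
import Pool.Agent.T9h71.KF.Abstract
import Pool.Agent.T9h71.KF.Tau

set_option autoImplicit false
set_option linter.unusedSectionVars false

namespace Pool.Agent.T9h71.KF

open Finset Matrix

variable {t : ℕ} {ι : Type} [Fintype ι] [DecidableEq ι]

/-- the tensor product operator on the Euclidean space of tensors -/
noncomputable def op (A : Fin t → Matrix ι ι ℂ) :
    EuclideanSpace ℂ (Fin t → ι) →ₗ[ℂ] EuclideanSpace ℂ (Fin t → ι) :=
  Matrix.toEuclideanLin (tau A)

lemma op_ofLp (A : Fin t → Matrix ι ι ℂ) (f : EuclideanSpace ℂ (Fin t → ι)) :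
    (op A f).ofLp = tau A *ᵥ f.ofLp := rfl

lemma op_op (A B : Fin t → Matrix ι ι ℂ) (f : EuclideanSpace ℂ (Fin t → ι)) :
    op A (op B f) = op (fun a => A a * B a) f := by
  apply WithLp.ofLp_injective
  rw [op_ofLp, op_ofLp, op_ofLp, Matrix.mulVec_mulVec, tau_mul]

lemma op_one (f : EuclideanSpace ℂ (Fin t → ι)) :
    op (fun _ : Fin t => (1 : Matrix ι ι ℂ)) f = f := by
  apply WithLp.ofLp_injective
  rw [op_ofLp, tau_one, Matrix.one_mulVec]

lemma op_adjoint (A : Fin t → Matrix ι ι ℂ) :
    LinearMap.adjoint (op A) = op (fun a => (A a)ᴴ) := by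
  unfold op
  rw [← Matrix.toEuclideanLin_conjTranspose_eq_adjoint, tau_conjTranspose]

lemma op_zero_slot (A : Fin t → Matrix ι ι ℂ) (a : Fin t) (h : A a = 0)
    (f : EuclideanSpace ℂ (Fin t → ι)) : op A f = 0 := by
  apply WithLp.ofLp_injective
  rw [op_ofLp, tau_zero_slot A a h, Matrix.zero_mulVec]
  rfl

lemma op_add (A B : Fin t → Matrix ι ι ℂ) (f : EuclideanSpace ℂ (Fin t → ι)) :
    op (fun a => A a + B a) f =
      ∑ S : Finset (Fin t), op (fun a => if a ∈ S then A a else B a) f := by
  have h : (op (fun a => A a + B a) : EuclideanSpace ℂ (Fin t → ι) →ₗ[ℂ] _) =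
      ∑ S : Finset (Fin t), op (fun a => if a ∈ S then A a else B a) := by
    unfold op
    rw [tau_add, map_sum]
  rw [h, LinearMap.sum_apply]

section Proj

variable (X : Matrix ι ι ℂ) (hX : Xᴴ = X) (hXX : X * X = X)

/-- the joint spectral projections of the slot projections -/
noncomputable def Q (S : Finset (Fin t)) :
    EuclideanSpace ℂ (Fin t → ι) →ₗ[ℂ] EuclideanSpace ℂ (Fin t → ι) :=
  op (fun a => if a ∈ S then X else 1 - X)

lemma Q_sum (f : EuclideanSpace ℂ (Fin t → ι)) : ∑ S, Q X S f = f := by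
  have := op_add (fun _ => X) (fun _ => 1 - X) f
  simp only [add_sub_cancel] at this
  rw [op_one] at this
  exact this.symm

include hX hXX in
lemma Q_quad (S : Finset (Fin t)) (f : EuclideanSpace ℂ (Fin t → ι)) :
    (inner ℂ f (Q X S f)).re = ‖Q X S f‖ ^ 2 := by
  have h1 : Q X S (Q X S f) = Q X S f := by
    unfold Q
    rw [op_op]
    congr 2
    ext1 a
    split_ifs
    · exact hXX
    · rw [mul_sub, mul_one, sub_mul, one_mul, hXX, sub_self, sub_zero]
  have h2 : LinearMap.adjoint (Q X S) = Q X S := by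
    unfold Q
    rw [op_adjoint]
    congr 1
    ext1 a
    split_ifs
    · exact hX
    · rw [Matrix.conjTranspose_sub, hX, Matrix.conjTranspose_one]
  have h3 : inner ℂ f (Q X S f) = inner ℂ (Q X S f) (Q X S f) := by
    conv_lhs => rw [← h1, ← LinearMap.adjoint_inner_left, h2]
  rw [h3, inner_self_eq_norm_sq_to_K]
  norm_cast

include hX hXX in
lemma Q_norm (f : EuclideanSpace ℂ (Fin t → ι)) : ∑ S, ‖Q X S f‖ ^ 2 = ‖f‖ ^ 2 := by
  have h1 : ∑ S, ‖Q X S f‖ ^ 2 = (inner ℂ f (∑ S, Q X S f)).re := by
    rw [inner_sum, Complex.re_sum]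
    exact Finset.sum_congr rfl fun S _ => (Q_quad X hX hXX S f).symm
  rw [h1, Q_sum, inner_self_eq_norm_sq_to_K]
  norm_cast

lemma slot_eq (a : Fin t) (f : EuclideanSpace ℂ (Fin t → ι)) :
    op (Function.update (fun _ => 1) a X) f = ∑ S ∈ univ.filter (fun S => a ∈ S), Q X S f := by
  have h := op_add (Function.update (fun _ => X) a X) (Function.update (fun _ => 1 - X) a 0) f
  have e1 : (fun b : Fin t => Function.update (fun _ => X) a X b +
      Function.update (fun _ => 1 - X) a 0 b) = Function.update (fun _ => 1) a X := by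
    ext1 b
    by_cases hb : b = a
    · subst hb; simp
    · simp [Function.update_of_ne hb]
  rw [e1] at h
  rw [h, Finset.sum_filter]
  refine Finset.sum_congr rfl fun S _ => ?_
  split_ifs with ha
  · unfold Q
    congr 2
    ext1 b
    by_cases hb : b = a
    · subst hb; simp [ha]
    · simp [Function.update_of_ne hb]
  · exact op_zero_slot _ a (by simp [ha]) f

include hX hXX in
lemma count_bound (N : Fin t → Submodule ℂ (EuclideanSpace ℂ (Fin t → ι)))
    (hN : ∀ j, ∀ g ∈ N j, ∀ S : Finset (Fin t), j.1 < S.card → Q X S g = 0)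
    (f : EuclideanSpace ℂ (Fin t → ι)) :
    ∑ a, (inner ℂ f (op (Function.update (fun _ => 1) a X) f)).re ≤
      ∑ j, ‖f - (N j).starProjection f‖ ^ 2 := by
  have h1 : ∑ a, (inner ℂ f (op (Function.update (fun _ => 1) a X) f)).re =
      ∑ S : Finset (Fin t), ∑ j : Fin t, if j.1 < S.card then ‖Q X S f‖ ^ 2 else 0 := by
    have e1 : ∀ a, (inner ℂ f (op (Function.update (fun _ => 1) a X) f)).re =
        ∑ S : Finset (Fin t), if a ∈ S then ‖Q X S f‖ ^ 2 else 0 := by
      intro a
      rw [slot_eq, inner_sum, Complex.re_sum, Finset.sum_filter]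
      refine Finset.sum_congr rfl fun S _ => ?_
      split_ifs
      · exact Q_quad X hX hXX S f
      · rfl
    rw [Finset.sum_congr rfl fun a _ => e1 a, Finset.sum_comm]
    refine Finset.sum_congr rfl fun S _ => ?_
    rw [← Finset.sum_filter, ← Finset.sum_filter, Finset.sum_const, Finset.sum_const]
    congr 1
    have hS : S.card ≤ t := by simpa using Finset.card_le_univ S
    rw [Finset.filter_mem_eq_inter, Finset.univ_inter]
    have e2 : (univ.filter fun j : Fin t => j.1 < S.card) =
        (Finset.univ : Finset (Fin S.card)).map ⟨Fin.castLE hS, Fin.castLE_injective hS⟩ := by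
      ext j
      simp only [mem_filter, mem_univ, true_and, mem_map, Function.Embedding.coeFn_mk]
      constructor
      · intro h; exact ⟨⟨j.1, h⟩, rfl⟩
      · rintro ⟨i, rfl⟩; exact i.2
    rw [e2, Finset.card_map, Finset.card_univ, Fintype.card_fin]
  rw [h1, Finset.sum_comm]
  refine Finset.sum_le_sum fun j _ => ?_
  rw [← Q_norm X hX hXX (f - (N j).starProjection f)]
  refine Finset.sum_le_sum fun S _ => ?_
  split_ifs with h
  · rw [map_sub, hN j _ (Submodule.starProjection_apply_mem (N j) f) S h, sub_zero]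
  · positivity

end Proj

end Pool.Agent.T9h71.KF
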