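import Mathlib
import Pool.Agent.T9h71.KF.Count

set_option autoImplicit false
set_option linter.unusedSectionVars false

namespace Pool.Agent.T9h71.KF

open Finset Matrix
open scoped Kronecker

variable {t m n : ℕ}

/-- the number of slots in row `i` -/
def rowc (x : Fin t → Fin m × Fin n) (i : Fin m) : ℕ := (univ.filter fun a => (x a).1 = i).card

/-- the row operator -/
noncomputable def rop (g : Matrix (Fin m) (Fin m) ℂ) :
    EuclideanSpace ℂ (Fin t → Fin m × Fin n) →ₗ[ℂ] EuclideanSpace ℂ (Fin t → Fin m × Fin n) :=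
  op (fun _ => g ⊗ₖ (1 : Matrix (Fin n) (Fin n) ℂ))

/-- the height of a configuration -/
def ht (x : Fin t → Fin m × Fin n) : ℕ := ∑ a, (m - (x a).1.1)

lemma ht_eq (x : Fin t → Fin m × Fin n) : ht x = ∑ i : Fin m, rowc x i * (m - i.1) := by
  unfold ht rowc
  rw [← Finset.sum_fiberwise (s := univ) (g := fun a => (x a).1)
    (f := fun a => (m - (x a).1.1))]
  refine Finset.sum_congr rfl fun i _ => ?_
  rw [Finset.sum_congr rfl (g := fun _ => (m - i.1)), Finset.sum_const, smul_eq_mul]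
  intro a ha
  rw [(Finset.mem_filter.1 ha).2]

lemma rop_diag_apply (z : Fin m → ℂ) (f : EuclideanSpace ℂ (Fin t → Fin m × Fin n))
    (x : Fin t → Fin m × Fin n) :
    rop (Matrix.diagonal z) f x = (∏ a, z (x a).1) * f x := by
  have h1 : rop (Matrix.diagonal z) f x = (tau (fun _ => (Matrix.diagonal z) ⊗ₖ
    (1 : Matrix (Fin n) (Fin n) ℂ)) *ᵥ f.ofLp) x := rfl
  rw [h1, Matrix.mulVec, dotProduct, Finset.sum_eq_single x]
  · rw [tau_apply]
    congr 1
    refine Finset.prod_congr rfl fun a _ => ?_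
    simp [Matrix.kroneckerMap_apply]
  · intro y _ hy
    obtain ⟨a, ha⟩ := Function.ne_iff.1 hy
    rw [tau_apply, Finset.prod_eq_zero (Finset.mem_univ a), zero_mul]
    rw [Matrix.kroneckerMap_apply]
    by_cases h2 : (x a).1 = (y a).1
    · have h3 : (x a).2 ≠ (y a).2 := fun h => ha (Prod.ext h2 h).symm
      rw [Matrix.one_apply_ne h3, mul_zero]
    · rw [Matrix.diagonal_apply_ne _ h2, zero_mul]
  · intro h; exact absurd (Finset.mem_univ _) h

lemma rop_two_apply (i : Fin m) (f : EuclideanSpace ℂ (Fin t → Fin m × Fin n))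
    (x : Fin t → Fin m × Fin n) :
    rop (Matrix.diagonal (Function.update (fun _ => (1 : ℂ)) i 2)) f x =
      2 ^ (rowc x i) * f x := by
  rw [rop_diag_apply]
  congr 1
  unfold rowc
  rw [Finset.prod_congr rfl (g := fun a => if (x a).1 = i then (2 : ℂ) else 1)]
  · rw [Finset.prod_ite, Finset.prod_const, Finset.prod_const_one, mul_one]
  · intro a _
    by_cases h : (x a).1 = i
    · rw [if_pos h, h, Function.update_self]
    · rw [if_neg h, Function.update_of_ne h]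

/-- a non-zero subspace stable under the row torus contains a weight vector -/
lemma exists_weight (U : Submodule ℂ (EuclideanSpace ℂ (Fin t → Fin m × Fin n)))
    (hU : ∀ (z : Fin m → ℂ), ∀ f ∈ U, rop (Matrix.diagonal z) f ∈ U) (f₀ : _) (hf₀ : f₀ ∈ U)
    (hne : f₀ ≠ 0) :
    ∃ u ∈ U, u ≠ 0 ∧ ∃ l : Fin m → ℕ, ∀ x, u x ≠ 0 → ∀ i, rowc x i = l i := by
  classical
  have hex : ∃ k : ℕ, ∃ f ∈ U, f ≠ 0 ∧ (univ.filter fun x => f x ≠ 0).card = k :=
    ⟨_, f₀, hf₀, hne, rfl⟩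
  obtain ⟨u, huU, hu0, hcard⟩ := Nat.find_spec hex
  have hmin : ∀ f ∈ U, f ≠ 0 → (univ.filter fun x => u x ≠ 0).card ≤
      (univ.filter fun x => f x ≠ 0).card := by
    intro f hf hf0
    rw [hcard]
    exact Nat.find_min' hex ⟨f, hf, hf0, rfl⟩
  obtain ⟨x₀, hx₀⟩ : ∃ x, u x ≠ 0 := by
    by_contra hc
    push Not at hc
    exact hu0 (PiLp.ext hc)
  refine ⟨u, huU, hu0, fun i => rowc x₀ i, fun x hx i => ?_⟩
  by_contra hne'
  let f := rop (Matrix.diagonal (Function.update (fun _ => (1 : ℂ)) i 2)) u -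
    (2 : ℂ) ^ (rowc x₀ i) • u
  have hfx : ∀ y, f y = ((2 : ℂ) ^ (rowc y i) - 2 ^ (rowc x₀ i)) * u y := by
    intro y
    show rop (Matrix.diagonal (Function.update (fun _ => (1 : ℂ)) i 2)) u y -
      ((2 : ℂ) ^ (rowc x₀ i) • u) y = _
    rw [rop_two_apply, PiLp.smul_apply, smul_eq_mul]
    ring
  have hfU : f ∈ U := Submodule.sub_mem _ (hU _ _ huU) (Submodule.smul_mem _ _ huU)
  have hf0 : f ≠ 0 := by
    intro h
    have h1 := hfx x
    rw [h] at h1
    have h2 : (2 : ℂ) ^ (rowc x i) - 2 ^ (rowc x₀ i) ≠ 0 := by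
      rw [sub_ne_zero]
      intro h3
      apply hne'
      have h4 : ((2 ^ (rowc x i) : ℕ) : ℂ) = ((2 ^ (rowc x₀ i) : ℕ) : ℂ) := by
        push_cast; exact h3
      exact Nat.pow_right_injective le_rfl (Nat.cast_injective h4)
    exact (mul_ne_zero h2 hx) h1.symm
  have h5 := hmin f hfU hf0
  have h6 : (univ.filter fun y => f y ≠ 0) ⊂ (univ.filter fun y => u y ≠ 0) := by
    rw [Finset.ssubset_iff_of_subset]
    · refine ⟨x₀, by simpa using hx₀, ?_⟩
      simp only [mem_filter, mem_univ, true_and, not_not]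
      rw [hfx, sub_self, zero_mul]
    · intro y hy
      simp only [mem_filter, mem_univ, true_and] at hy ⊢
      intro h
      apply hy
      rw [hfx, h, mul_zero]
  exact absurd (Finset.card_lt_card h6) (not_lt.2 h5)

/-- entries of a strictly upper triangular shift raise the height -/
lemma shift_apply (C : Matrix (Fin m) (Fin m) ℂ) (hC : ∀ i j, C i j ≠ 0 → i < j)
    (S : Finset (Fin t)) (hS : S.Nonempty) (k : ℕ)
    (u : EuclideanSpace ℂ (Fin t → Fin m × Fin n)) (hu : ∀ x, u x ≠ 0 → ht x = k)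
    (x : Fin t → Fin m × Fin n)
    (hx : op (fun a => if a ∈ S then C ⊗ₖ (1 : Matrix (Fin n) (Fin n) ℂ) else 1) u x ≠ 0) :
    k < ht x := by
  have h1 : op (fun a => if a ∈ S then C ⊗ₖ (1 : Matrix (Fin n) (Fin n) ℂ) else 1) u x =
    ∑ y, (tau (fun a => if a ∈ S then C ⊗ₖ (1 : Matrix (Fin n) (Fin n) ℂ) else 1) x y) * u y := rfl
  rw [h1] at hx
  obtain ⟨y, -, hy⟩ := Finset.exists_ne_zero_of_sum_ne_zero hx
  have hy1 := left_ne_zero_of_mul hy
  have hy2 := right_ne_zero_of_mul hy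
  rw [← hu y hy2]
  rw [tau_apply, Finset.prod_ne_zero_iff] at hy1
  have h3 : ∀ a, a ∈ S → (x a).1 < (y a).1 := by
    intro a ha
    have := hy1 a (Finset.mem_univ a)
    rw [if_pos ha, Matrix.kroneckerMap_apply] at this
    exact hC _ _ (left_ne_zero_of_mul this)
  have h4 : ∀ a, a ∉ S → x a = y a := by
    intro a ha
    have := hy1 a (Finset.mem_univ a)
    rw [if_neg ha] at this
    by_contra hne
    exact this (Matrix.one_apply_ne hne)
  unfold ht
  obtain ⟨a₀, ha₀⟩ := hS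
  refine Finset.sum_lt_sum (fun a _ => ?_) ⟨a₀, Finset.mem_univ _, ?_⟩
  · by_cases ha : a ∈ S
    · have := h3 a ha
      have h5 : (x a).1.1 < (y a).1.1 := this
      omega
    · rw [h4 a ha]
  · have := h3 a₀ ha₀
    have h5 : (x a₀).1.1 < (y a₀).1.1 := this
    have h6 := (y a₀).1.2
    omega

/-- highest weight vectors -/
theorem exists_highest (U : Submodule ℂ (EuclideanSpace ℂ (Fin t → Fin m × Fin n)))
    (hU : ∀ (g : Matrix (Fin m) (Fin m) ℂ), ∀ f ∈ U, rop g f ∈ U) (hbot : U ≠ ⊥) :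
    ∃ u ∈ U, u ≠ 0 ∧ (∃ l : Fin m → ℕ, ∀ x, u x ≠ 0 → ∀ i, rowc x i = l i) ∧
      ∀ C : Matrix (Fin m) (Fin m) ℂ, (∀ i j, C i j ≠ 0 → i < j) → rop (1 + C) u = u := by
  classical
  obtain ⟨f₀, hf₀, hne⟩ := (Submodule.ne_bot_iff U).1 hbot
  let P : ℕ → Prop := fun k => ∃ u ∈ U, u ≠ 0 ∧
    (∃ l : Fin m → ℕ, ∀ x, u x ≠ 0 → ∀ i, rowc x i = l i) ∧ ∀ x, u x ≠ 0 → ht x = k
  have hht : ∀ u : EuclideanSpace ℂ (Fin t → Fin m × Fin n), u ≠ 0 →
      (∃ l : Fin m → ℕ, ∀ x, u x ≠ 0 → ∀ i, rowc x i = l i) →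
      ∃ x, u x ≠ 0 ∧ ∀ y, u y ≠ 0 → ht y = ht x := by
    rintro u hu ⟨l, hl⟩
    obtain ⟨x₀, hx₀⟩ : ∃ x, u x ≠ 0 := by
      by_contra hc
      push Not at hc
      exact hu (PiLp.ext hc)
    refine ⟨x₀, hx₀, fun y hy => ?_⟩
    rw [ht_eq, ht_eq]
    exact Finset.sum_congr rfl fun i _ => by rw [hl y hy i, hl x₀ hx₀ i]
  have hbound : ∀ x : Fin t → Fin m × Fin n, ht x ≤ t * m := by
    intro x
    unfold ht
    calc ∑ a, (m - (x a).1.1) ≤ ∑ _a : Fin t, m := Finset.sum_le_sum fun a _ => Nat.sub_le _ _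
      _ = t * m := by simp
  have hP : ∃ k, P k := by
    obtain ⟨u, h1, h2, h3⟩ := exists_weight U (fun z => hU _) f₀ hf₀ hne
    obtain ⟨x, hx, hy⟩ := hht u h2 h3
    exact ⟨ht x, u, h1, h2, h3, hy⟩
  have hPb : ∀ k, P k → k ≤ t * m := by
    rintro k ⟨u, h1, h2, h3, h4⟩
    obtain ⟨x, hx, -⟩ := hht u h2 h3
    rw [← h4 x hx]
    exact hbound x
  obtain ⟨k₀, hk₀⟩ := hP
  have hspec := Nat.findGreatest_spec (P := P) (hPb k₀ hk₀) hk₀
  set k := Nat.findGreatest P (t * m) with hk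
  have hmax : ∀ k', P k' → k' ≤ k := fun k' hk' => Nat.le_findGreatest (hPb k' hk') hk'
  obtain ⟨u, huU, hu0, hl, huk⟩ := hspec
  refine ⟨u, huU, hu0, hl, fun C hC => ?_⟩
  by_contra hne2
  let f := rop (1 + C) u - u
  have hf0 : f ≠ 0 := sub_ne_zero.2 hne2
  have hfU : f ∈ U := Submodule.sub_mem _ (hU _ _ huU) huU
  have hfsup : ∀ x, f x ≠ 0 → k < ht x := by
    intro x hx
    have e1 : f = ∑ S ∈ univ.erase (∅ : Finset (Fin t)),
        op (fun a => if a ∈ S then C ⊗ₖ (1 : Matrix (Fin n) (Fin n) ℂ) else 1) u := by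
      have h1 : rop (1 + C) u = ∑ S : Finset (Fin t),
          op (fun a => if a ∈ S then C ⊗ₖ (1 : Matrix (Fin n) (Fin n) ℂ) else 1) u := by
        unfold rop
        rw [← op_add (fun _ => C ⊗ₖ (1 : Matrix (Fin n) (Fin n) ℂ)) (fun _ => 1) u]
        congr 2
        ext1 a
        rw [add_comm 1 C, Matrix.add_kronecker, Matrix.one_kronecker_one]
      have h2 : op (fun a : Fin t => if a ∈ (∅ : Finset (Fin t)) then
          C ⊗ₖ (1 : Matrix (Fin n) (Fin n) ℂ) else 1) u = u := by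
        simp only [Finset.notMem_empty, if_false]
        exact op_one u
      show rop (1 + C) u - u = _
      rw [h1, ← Finset.add_sum_erase univ _ (Finset.mem_univ (∅ : Finset (Fin t))), h2]
      abel
    rw [e1] at hx
    have e2 : (∑ S ∈ univ.erase (∅ : Finset (Fin t)),
        op (fun a => if a ∈ S then C ⊗ₖ (1 : Matrix (Fin n) (Fin n) ℂ) else 1) u) x =
        ∑ S ∈ univ.erase (∅ : Finset (Fin t)),
        op (fun a => if a ∈ S then C ⊗ₖ (1 : Matrix (Fin n) (Fin n) ℂ) else 1) u x := by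
      simp
    rw [e2] at hx
    obtain ⟨S, hS, hSx⟩ := Finset.exists_ne_zero_of_sum_ne_zero hx
    exact shift_apply C hC S (Finset.nonempty_iff_ne_empty.2 (Finset.ne_of_mem_erase hS)) k u huk x
      hSx
  let U' : Submodule ℂ (EuclideanSpace ℂ (Fin t → Fin m × Fin n)) :=
    { carrier := {f | f ∈ U ∧ ∀ x, f x ≠ 0 → k < ht x}
      zero_mem' := ⟨U.zero_mem, fun x hx => absurd rfl hx⟩
      add_mem' := by
        rintro a b ⟨ha, ha'⟩ ⟨hb, hb'⟩
        refine ⟨U.add_mem ha hb, fun x hx => ?_⟩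
        by_cases h1 : a x = 0
        · refine hb' x fun h2 => hx ?_
          rw [PiLp.add_apply, h1, h2, add_zero]
        · exact ha' x h1
      smul_mem' := by
        rintro c a ⟨ha, ha'⟩
        refine ⟨U.smul_mem c ha, fun x hx => ha' x fun h => hx ?_⟩
        rw [PiLp.smul_apply, h, smul_zero] }
  obtain ⟨u', ⟨hu'U, hu's⟩, hu'0, hl'⟩ := exists_weight U' (by
    rintro z g ⟨hg, hg'⟩
    refine ⟨hU _ _ hg, fun x hx => hg' x fun h => hx ?_⟩
    rw [rop_diag_apply, h, mul_zero]) f ⟨hfU, hfsup⟩ hf0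
  obtain ⟨x, hx, hy⟩ := hht u' hu'0 hl'
  have h7 := hmax (ht x) ⟨u', hu'U, hu'0, hl', hy⟩
  have h8 := hu's x hx
  omega

end Pool.Agent.T9h71.KF
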