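import Mathlib
import Pool.Agent.T9h71.KF.Weight

set_option autoImplicit false
set_option linter.unusedSectionVars false

namespace Pool.Agent.T9h71.KF

open Finset Matrix
open scoped Kronecker

variable {t m n : ℕ}

/-- the coordinate projection on the first `I` coordinates -/
noncomputable def pr (m I : ℕ) : Matrix (Fin m) (Fin m) ℂ :=
  Matrix.diagonal fun i => if i.1 < I then 1 else 0

lemma pr_sq (I : ℕ) : pr m I * pr m I = pr m I := by
  unfold pr
  rw [Matrix.diagonal_mul_diagonal]
  congr 1
  ext i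
  split_ifs <;> simp

/-- the first, coordinate, case -/
lemma kill_coord (I K : ℕ) (V : Matrix (Fin n) (Fin n) ℂ)
    (u : EuclideanSpace ℂ (Fin t → Fin m × Fin n)) (hA : Anti u.ofLp) (l : Fin m → ℕ)
    (hl : ∀ x, u x ≠ 0 → ∀ i, rowc x i = l i) (S : Finset (Fin t))
    (hS : ∑ i : Fin m, (if i.1 < I then min (l i) K else 0) < S.card) :
    op (fun a => if a ∈ S then (pr m I) ⊗ₖ (pr n K * V) else 1) u = 0 := by
  classical
  apply PiLp.ext
  intro x
  rw [PiLp.zero_apply]
  by_contra hF
  set A : Fin t → Matrix (Fin m × Fin n) (Fin m × Fin n) ℂ :=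
    fun a => if a ∈ S then (pr m I) ⊗ₖ (pr n K * V) else 1 with hAdef
  have h1 : op A u x = ∑ y, (tau A x y) * u y := rfl
  rw [h1] at hF
  obtain ⟨y, -, hy⟩ := Finset.exists_ne_zero_of_sum_ne_zero hF
  have hy1 := left_ne_zero_of_mul hy
  have hy2 := right_ne_zero_of_mul hy
  rw [tau_apply, Finset.prod_ne_zero_iff] at hy1
  have h3 : ∀ a, a ∈ S → (x a).1 = (y a).1 ∧ (x a).1.1 < I ∧ (x a).2.1 < K := by
    intro a ha
    have h4 := hy1 a (Finset.mem_univ a)
    simp only [hAdef] at h4
    rw [if_pos ha, Matrix.kroneckerMap_apply] at h4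
    have h5 := left_ne_zero_of_mul h4
    have h6 := right_ne_zero_of_mul h4
    unfold pr at h5 h6
    rw [Matrix.diagonal_mul] at h6
    have h7 := left_ne_zero_of_mul h6
    by_cases h8 : (x a).1 = (y a).1
    · rw [h8, Matrix.diagonal_apply_eq] at h5
      refine ⟨h8, ?_, ?_⟩
      · rw [h8]
        by_contra hc
        rw [if_neg hc] at h5
        exact h5 rfl
      · by_contra hc
        rw [if_neg hc] at h7
        exact h7 rfl
    · rw [Matrix.diagonal_apply_ne _ h8] at h5
      exact absurd rfl h5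
  have h4 : ∀ a, (x a).1 = (y a).1 := by
    intro a
    by_cases ha : a ∈ S
    · exact (h3 a ha).1
    · have h5 := hy1 a (Finset.mem_univ a)
      simp only [hAdef] at h5
      rw [if_neg ha] at h5
      by_contra hne
      exact h5 (Matrix.one_apply_ne fun h => hne (by rw [h]))
  have hrow : ∀ i, rowc x i = l i := by
    intro i
    rw [← hl y hy2 i]
    unfold rowc
    simp only [h4]
  have hinj : ∀ a ∈ S, ∀ b ∈ S, x a = x b → a = b := by
    intro a ha b hb hab
    by_contra hne
    have h5 := tau_perm A u.ofLp hA (Equiv.swap a b) (by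
      intro c
      by_cases h1 : c = a
      · subst h1; rw [Equiv.swap_apply_left]; simp [hAdef, ha, hb]
      · by_cases h2 : c = b
        · subst h2; rw [Equiv.swap_apply_right]; simp [hAdef, ha, hb]
        · rw [Equiv.swap_apply_of_ne_of_ne h1 h2]) x
    exact hF (anti_zero_of_eq (tau A *ᵥ u.ofLp) x a b hne hab h5)
  have hcard : S.card = ∑ i : Fin m, (S.filter fun a => (x a).1 = i).card := by
    rw [← Finset.card_eq_sum_card_fiberwise (f := fun a => (x a).1) (t := univ)]
    intro a _
    exact Finset.mem_coe.2 (Finset.mem_univ _)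
  have h6 : ∀ i : Fin m, (S.filter fun a => (x a).1 = i).card ≤
      if i.1 < I then min (l i) K else 0 := by
    intro i
    split_ifs with hi
    · refine le_min ?_ ?_
      · rw [← hrow i]
        unfold rowc
        exact Finset.card_le_card (Finset.filter_subset_filter _ (Finset.subset_univ _))
      · have h7 : ((S.filter fun a => (x a).1 = i).image fun a => (x a).2.1).card =
            (S.filter fun a => (x a).1 = i).card := by
          refine Finset.card_image_of_injOn fun a ha b hb hab => ?_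
          have ha' := Finset.mem_filter.1 (Finset.mem_coe.1 ha)
          have hb' := Finset.mem_filter.1 (Finset.mem_coe.1 hb)
          refine hinj a ha'.1 b hb'.1 (Prod.ext ?_ (Fin.ext hab))
          rw [ha'.2, hb'.2]
        rw [← h7]
        calc _ ≤ (Finset.range K).card := by
              refine Finset.card_le_card fun k hk => ?_
              obtain ⟨a, ha, rfl⟩ := Finset.mem_image.1 hk
              exact Finset.mem_range.2 (h3 a (Finset.mem_filter.1 ha).1).2.2
          _ = K := Finset.card_range K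
    · rw [Nat.le_zero, Finset.card_eq_zero, Finset.filter_eq_empty_iff]
      intro a ha hai
      apply hi
      rw [← hai]
      exact (h3 a ha).2.1
  have h7 := Finset.sum_le_sum fun i (_ : i ∈ univ) => h6 i
  rw [← hcard] at h7
  omega

/-- the algebraic identity behind the `LU`-reduction -/
lemma lu_identity (I : ℕ) (g L : Matrix (Fin m) (Fin m) ℂ) (s : ℂ)
    (hL : L = pr m I * g * pr m I + s • 1) (hdet : IsUnit L.det) :
    ∃ C : Matrix (Fin m) (Fin m) ℂ, (∀ i j, C i j ≠ 0 → i < j) ∧ C * C = 0 ∧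
      pr m I * (g + s • 1) = L * pr m I * (1 + C) := by
  set p := pr m I with hp
  have hpp : p * p = p := pr_sq I
  have hLp : L * p = p * L := by
    rw [hL, add_mul, mul_add, smul_mul_assoc, one_mul, mul_smul_comm, mul_one]
    congr 1
    rw [mul_assoc, hpp, ← mul_assoc, ← mul_assoc, hpp]
  have hLinv : L⁻¹ * p = p * L⁻¹ := by
    have h1 : L⁻¹ * (L * p) * L⁻¹ = L⁻¹ * (p * L) * L⁻¹ := by rw [hLp]
    rw [← mul_assoc, Matrix.nonsing_inv_mul L hdet, one_mul] at h1
    rw [h1, mul_assoc, mul_assoc, Matrix.mul_nonsing_inv L hdet, mul_one]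
  refine ⟨L⁻¹ * p * g * (1 - p), ?_, ?_, ?_⟩
  · intro i j hij
    have h1 : L⁻¹ * p * g * (1 - p) = p * (L⁻¹ * g) * (1 - p) := by
      rw [hLinv]
      simp only [mul_assoc]
    rw [h1] at hij
    have h2 : (1 - p : Matrix (Fin m) (Fin m) ℂ) = Matrix.diagonal fun i => if i.1 < I then 0 else 1 := by
      rw [hp]
      unfold pr
      rw [← Matrix.diagonal_one, Matrix.diagonal_sub]
      congr 1
      ext i
      split_ifs <;> simp
    rw [h2, Matrix.mul_diagonal, hp] at hij
    unfold pr at hij
    rw [Matrix.diagonal_mul] at hij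
    have h3 := right_ne_zero_of_mul hij
    have h4 := left_ne_zero_of_mul (left_ne_zero_of_mul hij)
    have h5 : i.1 < I := by
      by_contra hc
      rw [if_neg hc] at h4
      exact h4 rfl
    have h6 : ¬ j.1 < I := by
      intro hc
      rw [if_pos hc] at h3
      exact h3 rfl
    show i.1 < j.1
    omega
  · have h1 : (1 - p) * L⁻¹ * p = 0 := by
      rw [mul_assoc, hLinv, ← mul_assoc, sub_mul, one_mul, hpp, sub_self, zero_mul]
    calc L⁻¹ * p * g * (1 - p) * (L⁻¹ * p * g * (1 - p))
        = L⁻¹ * p * g * ((1 - p) * L⁻¹ * p) * (g * (1 - p)) := by simp only [mul_assoc]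
      _ = 0 := by rw [h1, mul_zero, zero_mul]
  · have h1 : L * p * (L⁻¹ * p * g * (1 - p)) = p * g * (1 - p) := by
      calc L * p * (L⁻¹ * p * g * (1 - p)) = (L * (p * L⁻¹)) * (p * (g * (1 - p))) := by
            simp only [mul_assoc]
        _ = (L * (L⁻¹ * p)) * (p * (g * (1 - p))) := by rw [hLinv]
        _ = (L * L⁻¹) * ((p * p) * (g * (1 - p))) := by simp only [mul_assoc]
        _ = p * g * (1 - p) := by
            rw [Matrix.mul_nonsing_inv L hdet, hpp, one_mul, mul_assoc]
    rw [mul_add (L * p), mul_one, h1, hL, add_mul, smul_mul_assoc, one_mul]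
    rw [mul_assoc (p * g) p p, hpp, mul_add, mul_smul_comm, mul_one, mul_sub, mul_one]
    abel

/-- highest weight vectors are killed by many copies of `(pr I g) ⊗ (pr K V)` -/
theorem kill (I K : ℕ) (V : Matrix (Fin n) (Fin n) ℂ)
    (u : EuclideanSpace ℂ (Fin t → Fin m × Fin n)) (hA : Anti u.ofLp) (l : Fin m → ℕ)
    (hl : ∀ x, u x ≠ 0 → ∀ i, rowc x i = l i)
    (hC : ∀ C : Matrix (Fin m) (Fin m) ℂ, (∀ i j, C i j ≠ 0 → i < j) → rop (1 + C) u = u)
    (S : Finset (Fin t))
    (hS : ∑ i : Fin m, (if i.1 < I then min (l i) K else 0) < S.card)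
    (g : Matrix (Fin m) (Fin m) ℂ) :
    op (fun a => if a ∈ S then (pr m I * g) ⊗ₖ (pr n K * V) else 1) u = 0 := by
  classical
  -- generic case
  have hgen : ∀ s : ℂ, IsUnit (pr m I * g * pr m I + s • (1 : Matrix (Fin m) (Fin m) ℂ)).det →
      op (fun a => if a ∈ S then (pr m I * (g + s • 1)) ⊗ₖ (pr n K * V) else 1) u = 0 := by
    intro s hs
    obtain ⟨C, hC1, hC2, hC3⟩ := lu_identity I g _ s rfl hs
    set L := pr m I * g * pr m I + s • (1 : Matrix (Fin m) (Fin m) ℂ) with hLdef
    have h1 : op (fun a => if a ∈ S then 1 else (1 + C) ⊗ₖ (1 : Matrix (Fin n) (Fin n) ℂ))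
        (op (fun a => if a ∈ S then (pr m I * (g + s • 1)) ⊗ₖ (pr n K * V) else 1) u) = 0 := by
      have h2 : op (fun a => if a ∈ S then 1 else (1 + C) ⊗ₖ (1 : Matrix (Fin n) (Fin n) ℂ))
        (op (fun a => if a ∈ S then (pr m I * (g + s • 1)) ⊗ₖ (pr n K * V) else 1) u) =
        op (fun a => if a ∈ S then L ⊗ₖ (1 : Matrix (Fin n) (Fin n) ℂ) else 1)
          (op (fun a => if a ∈ S then (pr m I) ⊗ₖ (pr n K * V) else 1) (rop (1 + C) u)) := by
        unfold rop
        rw [op_op, op_op, op_op]
        congr 2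
        ext1 a
        split_ifs
        · rw [one_mul, ← Matrix.mul_kronecker_mul, ← Matrix.mul_kronecker_mul, hC3, mul_one,
            one_mul, mul_assoc]
        · rw [mul_one, one_mul, one_mul]
      rw [h2, hC C hC1, kill_coord I K V u hA l hl S hS, map_zero]
    have h3 : ∀ f : EuclideanSpace ℂ (Fin t → Fin m × Fin n),
        op (fun a => if a ∈ S then 1 else (1 - C) ⊗ₖ (1 : Matrix (Fin n) (Fin n) ℂ))
        (op (fun a => if a ∈ S then 1 else (1 + C) ⊗ₖ (1 : Matrix (Fin n) (Fin n) ℂ)) f) = f := by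
      intro f
      rw [op_op]
      conv_rhs => rw [← op_one f]
      congr 2
      ext1 a
      split_ifs
      · rw [one_mul]
      · rw [← Matrix.mul_kronecker_mul, one_mul, sub_mul, one_mul, mul_add, mul_one, hC2,
          add_zero, add_sub_cancel_right, Matrix.one_kronecker_one]
    rw [← h3 (op (fun a => if a ∈ S then (pr m I * (g + s • 1)) ⊗ₖ (pr n K * V) else 1) u), h1,
      map_zero]
  -- density
  apply PiLp.ext
  intro x
  rw [PiLp.zero_apply]
  let F : ℂ → ℂ := fun s =>
    op (fun a => if a ∈ S then (pr m I * (g + s • 1)) ⊗ₖ (pr n K * V) else 1) u x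
  have hF : F = fun s => ∑ y, (∏ a, (if a ∈ S then (pr m I * (g + s • 1)) ⊗ₖ (pr n K * V) else 1 :
      Matrix (Fin m × Fin n) (Fin m × Fin n) ℂ) (x a) (y a)) * u y := rfl
  have hcont : Continuous F := by
    rw [hF]
    refine continuous_finsetSum _ fun y _ => Continuous.mul ?_ continuous_const
    refine continuous_finsetProd _ fun a _ => ?_
    by_cases ha : a ∈ S
    · simp only [if_pos ha, Matrix.kroneckerMap_apply]
      refine Continuous.mul ?_ continuous_const
      have : Continuous fun s : ℂ => pr m I * (g + s • (1 : Matrix (Fin m) (Fin m) ℂ)) := by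
        fun_prop
      exact (continuous_apply_apply _ _).comp this
    · simp only [if_neg ha]
      exact continuous_const
  have hfin : (spectrum ℂ (-(pr m I * g * pr m I))).Finite := Matrix.finite_spectrum _
  have hdense : Dense (spectrum ℂ (-(pr m I * g * pr m I)))ᶜ :=
    Set.Countable.dense_compl ℝ hfin.countable
  have hzero : ∀ s ∈ (spectrum ℂ (-(pr m I * g * pr m I)))ᶜ, F s = 0 := by
    intro s hs
    have h1 : IsUnit (algebraMap ℂ (Matrix (Fin m) (Fin m) ℂ) s - (-(pr m I * g * pr m I))) := by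
      by_contra hc
      exact hs (spectrum.mem_iff.2 hc)
    rw [sub_neg_eq_add, Algebra.algebraMap_eq_smul_one, add_comm, Matrix.isUnit_iff_isUnit_det] at h1
    have h2 := hgen s h1
    show op (fun a => if a ∈ S then (pr m I * (g + s • 1)) ⊗ₖ (pr n K * V) else 1) u x = 0
    rw [h2, PiLp.zero_apply]
  have hF0 : F = fun _ => 0 := Continuous.ext_on hdense hcont continuous_const hzero
  have h4 : F 0 = 0 := by rw [hF0]
  have h5 : F 0 = op (fun a => if a ∈ S then (pr m I * g) ⊗ₖ (pr n K * V) else 1) u x := by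
    show op (fun a => if a ∈ S then (pr m I * (g + (0 : ℂ) • 1)) ⊗ₖ (pr n K * V) else 1) u x = _
    rw [zero_smul, add_zero]
  rw [← h5, h4]

end Pool.Agent.T9h71.KF
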