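import Mathlib
import Pool.Agent.T9h71.KF.Count

set_option autoImplicit false
set_option linter.unusedSectionVars false

namespace Pool.Agent.T9h71.KF

open Finset Matrix

variable {t : ℕ} {ι : Type} [Fintype ι] [DecidableEq ι]

/-- the Slater determinant of the vectors `v` -/
noncomputable def slater (v : Fin t → ι → ℂ) : (Fin t → ι) → ℂ :=
  fun x => ∑ σ : Equiv.Perm (Fin t), ((Equiv.Perm.sign σ : ℤ) : ℂ) * ∏ a, v (σ a) (x a)

lemma slater_anti (v : Fin t → ι → ℂ) : Anti (slater v) := by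
  intro τ x
  unfold slater
  rw [Finset.mul_sum, ← Equiv.sum_comp (Equiv.mulRight τ)
    (fun σ : Equiv.Perm (Fin t) => ((Equiv.Perm.sign σ : ℤ) : ℂ) *
      ∏ a, v (σ a) ((x ∘ τ) a))]
  refine Finset.sum_congr rfl fun σ _ => ?_
  rw [← Equiv.prod_comp τ (fun a => v (σ a) (x a))]
  simp only [Equiv.coe_mulRight, Equiv.Perm.coe_mul, Function.comp, map_mul, Units.val_mul,
    Int.cast_mul]
  ring

lemma tau_slater (A : Fin t → Matrix ι ι ℂ) (v : Fin t → ι → ℂ) (x : Fin t → ι) :
    (tau A *ᵥ slater v) x = ∑ σ : Equiv.Perm (Fin t), ((Equiv.Perm.sign σ : ℤ) : ℂ) *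
      ∏ a, (A a *ᵥ v (σ a)) (x a) := by
  simp only [Matrix.mulVec, dotProduct, slater]
  simp only [Finset.mul_sum]
  rw [Finset.sum_comm]
  refine Finset.sum_congr rfl fun σ _ => ?_
  rw [Finset.prod_univ_sum, Fintype.piFinset_univ, Finset.mul_sum]
  refine Finset.sum_congr rfl fun y _ => ?_
  rw [tau_apply, Finset.prod_mul_distrib]
  ring

lemma inner_slater (A : Fin t → Matrix ι ι ℂ) (v : Fin t → ι → ℂ) :
    inner ℂ (WithLp.toLp 2 (slater v)) (op A (WithLp.toLp 2 (slater v))) =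
      ∑ σ : Equiv.Perm (Fin t), ∑ σ' : Equiv.Perm (Fin t),
        ((Equiv.Perm.sign σ : ℤ) : ℂ) * ((Equiv.Perm.sign σ' : ℤ) : ℂ) *
        ∏ a, (star (v (σ a)) ⬝ᵥ (A a *ᵥ v (σ' a))) := by
  rw [PiLp.inner_apply]
  have e1 : ∀ x : Fin t → ι, inner ℂ ((WithLp.toLp 2 (slater v)) x)
      ((op A (WithLp.toLp 2 (slater v))) x) =
      ∑ σ : Equiv.Perm (Fin t), ∑ σ' : Equiv.Perm (Fin t),
        ((Equiv.Perm.sign σ : ℤ) : ℂ) * ((Equiv.Perm.sign σ' : ℤ) : ℂ) *
        ∏ a, (star (v (σ a) (x a)) * (A a *ᵥ v (σ' a)) (x a)) := by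
    intro x
    have h1 : (op A (WithLp.toLp 2 (slater v))) x = (tau A *ᵥ slater v) x := rfl
    rw [h1, tau_slater, RCLike.inner_apply]
    show _ * (starRingEnd ℂ) (slater v x) = _
    unfold slater
    rw [map_sum, Finset.sum_mul_sum, Finset.sum_comm]
    refine Finset.sum_congr rfl fun σ _ => Finset.sum_congr rfl fun σ' _ => ?_
    rw [map_mul, map_prod, Finset.prod_mul_distrib]
    have h2 : (starRingEnd ℂ) (((Equiv.Perm.sign σ : ℤ) : ℂ)) = ((Equiv.Perm.sign σ : ℤ) : ℂ) :=
      map_intCast _ _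
    rw [h2]
    simp only [starRingEnd_apply]
    ring
  rw [Finset.sum_congr rfl fun x _ => e1 x, Finset.sum_comm]
  refine Finset.sum_congr rfl fun σ _ => ?_
  rw [Finset.sum_comm]
  refine Finset.sum_congr rfl fun σ' _ => ?_
  rw [← Finset.mul_sum]
  congr 1
  simp only [dotProduct, Pi.star_apply]
  rw [Finset.prod_univ_sum, Fintype.piFinset_univ]

lemma exists_slater (v : Fin t → ι → ℂ)
    (hv : ∀ a b, star (v a) ⬝ᵥ v b = if a = b then 1 else 0) :
    ∃ w : EuclideanSpace ℂ (Fin t → ι), Anti w.ofLp ∧ ‖w‖ ^ 2 = (t.factorial : ℝ) ∧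
      ∀ M : Matrix ι ι ℂ, ∑ a, inner ℂ w (op (Function.update (fun _ => 1) a M) w) =
        (t.factorial : ℂ) * ∑ b, (star (v b) ⬝ᵥ (M *ᵥ v b)) := by
  refine ⟨WithLp.toLp 2 (slater v), slater_anti v, ?_, ?_⟩
  · have h1 := inner_slater (fun _ => 1) v
    rw [op_one, inner_self_eq_norm_sq_to_K] at h1
    have h2 : ∀ σ σ' : Equiv.Perm (Fin t),
        ((Equiv.Perm.sign σ : ℤ) : ℂ) * ((Equiv.Perm.sign σ' : ℤ) : ℂ) *
        ∏ a, (star (v (σ a)) ⬝ᵥ ((1 : Matrix ι ι ℂ) *ᵥ v (σ' a))) = if σ = σ' then 1 else 0 := by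
      intro σ σ'
      simp only [Matrix.one_mulVec, hv]
      split_ifs with h
      · subst h
        simp [← Int.cast_mul]
      · obtain ⟨a, ha⟩ : ∃ a, σ a ≠ σ' a := by
          by_contra hc
          push Not at hc
          exact h (Equiv.ext hc)
        rw [Finset.prod_eq_zero (Finset.mem_univ a) (if_neg ha), mul_zero]
    rw [Finset.sum_congr rfl fun σ _ => Finset.sum_congr rfl fun σ' _ => h2 σ σ'] at h1
    simp only [Finset.sum_ite_eq, Finset.mem_univ, if_true, Finset.sum_const, Finset.card_univ,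
      Fintype.card_perm, Fintype.card_fin, nsmul_eq_mul, mul_one] at h1
    have h3 := congrArg Complex.re h1
    norm_cast at h3
  · intro M
    have h2 : ∀ a, inner ℂ (WithLp.toLp 2 (slater v))
        (op (Function.update (fun _ => 1) a M) (WithLp.toLp 2 (slater v))) =
        ∑ σ : Equiv.Perm (Fin t), (star (v (σ a)) ⬝ᵥ (M *ᵥ v (σ a))) := by
      intro a
      rw [inner_slater]
      refine Finset.sum_congr rfl fun σ _ => ?_
      rw [Finset.sum_eq_single σ]
      · rw [← Finset.mul_prod_erase univ _ (Finset.mem_univ a)]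
        have e1 : ∏ b ∈ univ.erase a, (star (v (σ b)) ⬝ᵥ
            (Function.update (fun _ => (1 : Matrix ι ι ℂ)) a M b *ᵥ v (σ b))) = 1 := by
          refine Finset.prod_eq_one fun b hb => ?_
          rw [Function.update_of_ne (Finset.ne_of_mem_erase hb), Matrix.one_mulVec, hv, if_pos rfl]
        rw [e1, Function.update_self, mul_one]
        have e2 : ((Equiv.Perm.sign σ : ℤ) : ℂ) * ((Equiv.Perm.sign σ : ℤ) : ℂ) = 1 := by
          rw [← Int.cast_mul]
          simp
        rw [e2, one_mul]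
      · intro σ' _ hne
        obtain ⟨b, hb, hb2⟩ : ∃ b, b ≠ a ∧ σ b ≠ σ' b := by
          by_contra hc
          push Not at hc
          apply hne
          have h3 : ∀ b, b ≠ a → σ b = σ' b := hc
          ext1 b
          by_cases hb : b = a
          · subst hb
            by_contra hne2
            have h4 : σ'.symm (σ b) ≠ b := by
              intro h5
              have h6 := congrArg σ' h5
              rw [Equiv.apply_symm_apply] at h6
              exact hne2 h6.symm
            have h5 := h3 _ h4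
            rw [Equiv.apply_symm_apply] at h5
            exact h4 (σ.injective h5)
          · exact (h3 b hb).symm
        rw [Finset.prod_eq_zero (Finset.mem_univ b), mul_zero]
        rw [Function.update_of_ne hb, Matrix.one_mulVec, hv, if_neg hb2]
      · intro h; exact absurd (Finset.mem_univ _) h
    rw [Finset.sum_congr rfl fun a _ => h2 a, Finset.sum_comm]
    have h3 : ∀ σ : Equiv.Perm (Fin t), ∑ a, (star (v (σ a)) ⬝ᵥ (M *ᵥ v (σ a))) =
        ∑ b, (star (v b) ⬝ᵥ (M *ᵥ v b)) := fun σ =>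
      Equiv.sum_comp σ (fun b => (star (v b) ⬝ᵥ (M *ᵥ v b)))
    rw [Finset.sum_congr rfl fun σ _ => h3 σ]
    simp [Fintype.card_perm]

end Pool.Agent.T9h71.KF
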