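import Mathlib
import Pool.Agent.T9h71.KF.Kill
import Pool.Agent.T9h71.KF.Slater

set_option autoImplicit false
set_option linter.unusedSectionVars false

namespace Pool.Agent.T9h71.KF

open Finset Matrix
open scoped Kronecker

variable {t m n : ℕ}

/-- the antisymmetric tensors -/
def antiSub (t m n : ℕ) : Submodule ℂ (EuclideanSpace ℂ (Fin t → Fin m × Fin n)) where
  carrier := {f | Anti f.ofLp}
  zero_mem' := fun σ x => by simp
  add_mem' := by
    intro a b ha hb σ x
    rw [WithLp.ofLp_add, Pi.add_apply, Pi.add_apply, ha σ x, hb σ x]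
    ring
  smul_mem' := by
    intro c a ha σ x
    rw [WithLp.ofLp_smul, Pi.smul_apply, Pi.smul_apply, ha σ x, smul_eq_mul, smul_eq_mul]
    ring

/-- antisymmetric tensors killed by all `(pr I g) ⊗ (pr K V)` in more than `j` slots -/
def Nsub (t : ℕ) {m n : ℕ} (I K : ℕ) (V : Matrix (Fin n) (Fin n) ℂ) (j : ℕ) :
    Submodule ℂ (EuclideanSpace ℂ (Fin t → Fin m × Fin n)) where
  carrier := {f | f ∈ antiSub t m n ∧ ∀ S : Finset (Fin t), j < S.card →
    ∀ g : Matrix (Fin m) (Fin m) ℂ,
      op (fun a => if a ∈ S then (pr m I * g) ⊗ₖ (pr n K * V) else 1) f = 0}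
  zero_mem' := ⟨Submodule.zero_mem _, fun S _ g => map_zero _⟩
  add_mem' := by
    rintro a b ⟨ha, ha'⟩ ⟨hb, hb'⟩
    exact ⟨Submodule.add_mem _ ha hb, fun S hS g => by
      rw [map_add, ha' S hS g, hb' S hS g, add_zero]⟩
  smul_mem' := by
    rintro c a ⟨ha, ha'⟩
    exact ⟨Submodule.smul_mem _ c ha, fun S hS g => by rw [map_smul, ha' S hS g, smul_zero]⟩

lemma rop_antiSub (g : Matrix (Fin m) (Fin m) ℂ) (f : _) (hf : f ∈ antiSub t m n) :
    rop g f ∈ antiSub t m n := anti_tau_const _ f.ofLp hf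

lemma rop_Nsub (I K : ℕ) (V : Matrix (Fin n) (Fin n) ℂ) (j : ℕ) (g : Matrix (Fin m) (Fin m) ℂ)
    (f : _) (hf : f ∈ Nsub t (m := m) I K V j) : rop g f ∈ Nsub t (m := m) I K V j := by
  refine ⟨rop_antiSub g f hf.1, fun S hS g' => ?_⟩
  have h1 : op (fun a => if a ∈ S then (pr m I * g') ⊗ₖ (pr n K * V) else 1) (rop g f) =
      op (fun a => if a ∈ S then 1 else g ⊗ₖ (1 : Matrix (Fin n) (Fin n) ℂ))
        (op (fun a => if a ∈ S then (pr m I * (g' * g)) ⊗ₖ (pr n K * V) else 1) f) := by
    unfold rop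
    rw [op_op, op_op]
    congr 2
    ext1 a
    split_ifs
    · rw [one_mul, ← Matrix.mul_kronecker_mul, mul_one, mul_assoc]
    · rw [one_mul, mul_one]
  rw [h1, hf.2 S hS, map_zero]

theorem core {R : Type} [Fintype R] [DecidableEq R] (w : R → ℝ) (hw : ∀ r, 0 ≤ w r) (I K : R → ℕ)
    (U : R → Matrix (Fin m) (Fin m) ℂ) (V : R → Matrix (Fin n) (Fin n) ℂ)
    (hU : ∀ r, (U r)ᴴ * U r = 1) (hV : ∀ r, (V r)ᴴ * V r = 1) (h : ℝ)
    (hT : ∀ T : Finset (Fin m × Fin n), T.card = t →
      ∑ r, w r * ((T.filter fun p => p.1.1 < I r ∧ p.2.1 < K r).card : ℝ) ≤ h)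
    (f : EuclideanSpace ℂ (Fin t → Fin m × Fin n)) (hf : Anti f.ofLp) :
    ∑ r, w r * ∑ a, (inner ℂ f (op (Function.update (fun _ => 1) a
      ((U r * pr m (I r) * (U r)ᴴ) ⊗ₖ (V r * pr n (K r) * (V r)ᴴ))) f)).re ≤ h * ‖f‖ ^ 2 := by
  classical
  have habs := abstract_bound (J := R × Fin t) (antiSub t m n)
    (fun q => Nsub t (I q.1) (K q.1) (V q.1)ᴴ q.2.1) (fun q f hf => hf.1) (fun q => w q.1)
    (fun q => hw q.1) {T | ∃ g : Matrix (Fin m) (Fin m) ℂ, T = rop g} (by
      rintro T ⟨g, rfl⟩
      refine ⟨gᴴ, ?_⟩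
      unfold rop
      rw [op_adjoint]
      congr 1
      ext1 a
      rw [Matrix.conjTranspose_kronecker, Matrix.conjTranspose_one]) (by
      rintro T ⟨g, rfl⟩ f hf
      exact rop_antiSub g f hf) (by
      rintro T ⟨g, rfl⟩ q f hf
      exact rop_Nsub _ _ _ _ g f hf) h ?_ f hf
  · refine le_trans ?_ habs
    rw [Fintype.sum_prod_type]
    refine Finset.sum_le_sum fun r _ => ?_
    dsimp only
    rw [← Finset.mul_sum]
    refine mul_le_mul_of_nonneg_left ?_ (hw r)
    have hUU : (U r * pr m (I r) * (U r)ᴴ) * (U r * pr m (I r) * (U r)ᴴ) =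
        U r * pr m (I r) * (U r)ᴴ := by
      calc (U r * pr m (I r) * (U r)ᴴ) * (U r * pr m (I r) * (U r)ᴴ) =
          U r * (pr m (I r) * ((U r)ᴴ * U r) * pr m (I r)) * (U r)ᴴ := by simp only [mul_assoc]
        _ = _ := by rw [hU, mul_one, pr_sq]
    have hVV : (V r * pr n (K r) * (V r)ᴴ) * (V r * pr n (K r) * (V r)ᴴ) =
        V r * pr n (K r) * (V r)ᴴ := by
      calc (V r * pr n (K r) * (V r)ᴴ) * (V r * pr n (K r) * (V r)ᴴ) =
          V r * (pr n (K r) * ((V r)ᴴ * V r) * pr n (K r)) * (V r)ᴴ := by simp only [mul_assoc]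
        _ = _ := by rw [hV, mul_one, pr_sq]
    have hprH : ∀ k J : ℕ, (pr k J)ᴴ = pr k J := by
      intro k J
      unfold pr
      rw [Matrix.diagonal_conjTranspose]
      congr 1
      ext i
      rw [Pi.star_apply]
      split_ifs <;> simp
    have hUH : (U r * pr m (I r) * (U r)ᴴ)ᴴ = U r * pr m (I r) * (U r)ᴴ := by
      rw [Matrix.conjTranspose_mul, Matrix.conjTranspose_mul, Matrix.conjTranspose_conjTranspose,
        hprH, mul_assoc]
    have hVH : (V r * pr n (K r) * (V r)ᴴ)ᴴ = V r * pr n (K r) * (V r)ᴴ := by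
      rw [Matrix.conjTranspose_mul, Matrix.conjTranspose_mul, Matrix.conjTranspose_conjTranspose,
        hprH, mul_assoc]
    refine count_bound _ ?_ ?_ (fun j => Nsub t (I r) (K r) (V r)ᴴ j.1) ?_ f
    · rw [Matrix.conjTranspose_kronecker, hUH, hVH]
    · rw [← Matrix.mul_kronecker_mul, hUU, hVV]
    · intro j g hg S hS
      have h1 := hg.2 S hS (U r)ᴴ
      have h2 : Q ((U r * pr m (I r) * (U r)ᴴ) ⊗ₖ (V r * pr n (K r) * (V r)ᴴ)) S g =
          op (fun a => if a ∈ S then (U r) ⊗ₖ (V r) else
            1 - ((U r * pr m (I r) * (U r)ᴴ) ⊗ₖ (V r * pr n (K r) * (V r)ᴴ)))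
          (op (fun a => if a ∈ S then (pr m (I r) * (U r)ᴴ) ⊗ₖ (pr n (K r) * (V r)ᴴ) else 1) g) := by
        unfold Q
        rw [op_op]
        congr 2
        ext1 a
        split_ifs
        · rw [← Matrix.mul_kronecker_mul, mul_assoc, mul_assoc]
        · rw [mul_one]
      rw [h2, h1, map_zero]
  · intro W hWA hW0 hWG
    obtain ⟨u, huW, hu0, ⟨l, hl⟩, hC⟩ := exists_highest W (fun g f hf => hWG (rop g) ⟨g, rfl⟩ f hf) hW0
    have huA : Anti u.ofLp := hWA huW
    obtain ⟨x₀, hx₀⟩ : ∃ x, u x ≠ 0 := by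
      by_contra hc
      push Not at hc
      exact hu0 (PiLp.ext hc)
    have hinj : Function.Injective x₀ := by
      intro a b hab
      by_contra hne
      exact hx₀ (anti_zero_of_eq u.ofLp x₀ a b hne hab (huA _ _))
    have hln : ∀ i, l i ≤ n := by
      intro i
      rw [← hl x₀ hx₀ i]
      unfold rowc
      have h1 : ((univ.filter fun a => (x₀ a).1 = i).image fun a => (x₀ a).2).card =
          (univ.filter fun a => (x₀ a).1 = i).card := by
        refine Finset.card_image_of_injOn fun a ha b hb hab => hinj (Prod.ext ?_ hab)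
        rw [(Finset.mem_filter.1 (Finset.mem_coe.1 ha)).2,
          (Finset.mem_filter.1 (Finset.mem_coe.1 hb)).2]
      rw [← h1]
      calc _ ≤ (univ : Finset (Fin n)).card := Finset.card_le_univ _
        _ = n := by simp
    have hlsum : ∑ i, l i = t := by
      have h1 : ∑ i, rowc x₀ i = t := by
        unfold rowc
        rw [← Finset.card_eq_sum_card_fiberwise (f := fun a => (x₀ a).1) (s := univ) (t := univ)]
        · simp
        · intro a _
          exact Finset.mem_coe.2 (Finset.mem_univ _)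
      rw [← h1]
      exact Finset.sum_congr rfl fun i _ => (hl x₀ hx₀ i).symm
    let T : Finset (Fin m × Fin n) := univ.filter fun p => p.2.1 < l p.1
    have hcnt : ∀ I' K' : ℕ, (T.filter fun p => p.1.1 < I' ∧ p.2.1 < K').card =
        ∑ i : Fin m, (if i.1 < I' then min (l i) K' else 0) := by
      intro I' K'
      rw [Finset.card_eq_sum_card_fiberwise (f := fun p : Fin m × Fin n => p.1) (t := univ)]
      · refine Finset.sum_congr rfl fun i _ => ?_
        split_ifs with hi
        · have e1 : ((T.filter fun p => p.1.1 < I' ∧ p.2.1 < K').filter fun p => p.1 = i) =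
              (univ : Finset (Fin (min (l i) K'))).map
              ⟨fun k => (i, (⟨k.1, lt_of_lt_of_le k.2 ((min_le_left _ _).trans (hln i))⟩ : Fin n)), by
                intro a b hab
                simp only [Prod.mk.injEq, Fin.mk.injEq, true_and] at hab
                exact Fin.ext hab⟩ := by
            ext p
            simp only [T, mem_filter, mem_univ, true_and, mem_map]
            constructor
            · rintro ⟨⟨h1, h2, h3⟩, rfl⟩
              exact ⟨⟨p.2.1, lt_min h1 h3⟩, rfl⟩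
            · rintro ⟨k, rfl⟩
              exact ⟨⟨lt_of_lt_of_le k.2 (min_le_left _ _), hi,
                lt_of_lt_of_le k.2 (min_le_right _ _)⟩, rfl⟩
          rw [e1, Finset.card_map, Finset.card_univ, Fintype.card_fin]
        · rw [Finset.card_eq_zero, Finset.filter_eq_empty_iff]
          intro p hp hpi
          apply hi
          rw [← hpi]
          exact (Finset.mem_filter.1 hp).2.1
      · intro a _
        exact Finset.mem_coe.2 (Finset.mem_univ _)
    have hTcard : T.card = t := by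
      have h1 := hcnt m n
      have h2 : (T.filter fun p => p.1.1 < m ∧ p.2.1 < n) = T := by
        refine Finset.filter_true_of_mem fun p _ => ⟨p.1.2, p.2.2⟩
      rw [h2] at h1
      rw [h1, ← hlsum]
      refine Finset.sum_congr rfl fun i _ => ?_
      rw [if_pos i.2, min_eq_left (hln i)]
    refine ⟨u, huW, hu0, univ.filter fun q : R × Fin t => q.2.1 <
      ∑ i : Fin m, (if i.1 < I q.1 then min (l i) (K q.1) else 0), ?_, ?_⟩
    · intro q hq
      refine ⟨hWA huW, fun S hS g => ?_⟩
      refine kill (I q.1) (K q.1) (V q.1)ᴴ u huA l hl hC S ?_ g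
      simp only [mem_filter, mem_univ, true_and, not_lt] at hq
      exact lt_of_le_of_lt hq hS
    · refine le_trans ?_ (hT T hTcard)
      rw [Finset.sum_filter, Fintype.sum_prod_type]
      refine Finset.sum_le_sum fun r _ => ?_
      rw [hcnt]
      dsimp only
      rw [← Finset.sum_filter, Finset.sum_const, nsmul_eq_mul, mul_comm]
      refine mul_le_mul_of_nonneg_left ?_ (hw r)
      norm_cast
      set c := ∑ i : Fin m, (if i.1 < I r then min (l i) (K r) else 0)
      calc (univ.filter fun j : Fin t => j.1 < c).card ≤ (Finset.range c).card := by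
            rw [← Finset.card_image_of_injective (univ.filter fun j : Fin t => j.1 < c)
              Fin.val_injective]
            refine Finset.card_le_card fun k hk => ?_
            obtain ⟨j, hj, rfl⟩ := Finset.mem_image.1 hk
            exact Finset.mem_range.2 (Finset.mem_filter.1 hj).2
        _ = c := Finset.card_range c

end Pool.Agent.T9h71.KF
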