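import Mathlib
import Pool.Agent.T9h71.KF.Core

set_option autoImplicit false
set_option linter.unusedSectionVars false

namespace Pool.Agent.T9h71.KF

open Finset Matrix
open scoped Kronecker

section KyFan

variable {H : Type*} [NormedAddCommGroup H] [InnerProductSpace ℂ H] [FiniteDimensional ℂ H]

lemma quad_expand (T : H →ₗ[ℂ] H) (hT : T.IsSymmetric) {N : ℕ}
    (hn : Module.finrank ℂ H = N) (f : H) :
    (inner ℂ f (T f)).re =
      ∑ i, (hT.eigenvalues hn i) * ‖inner ℂ (hT.eigenvectorBasis hn i) f‖ ^ 2 := by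
  set b := hT.eigenvectorBasis hn with hbdef
  have hb : ∀ i, T (b i) = ((hT.eigenvalues hn i : ℝ) : ℂ) • b i := hT.apply_eigenvectorBasis hn
  have h1 : inner ℂ f (T f) =
      ∑ i, (((hT.eigenvalues hn i) * ‖inner ℂ (b i) f‖ ^ 2 : ℝ) : ℂ) := by
    rw [← b.sum_inner_mul_inner f (T f)]
    refine Finset.sum_congr rfl fun i _ => ?_
    have e1 : inner ℂ (b i) (T f) = ((hT.eigenvalues hn i : ℝ) : ℂ) * inner ℂ (b i) f := by
      rw [← hT (b i) f, hb i, inner_smul_left, Complex.conj_ofReal]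
    have e2 : inner ℂ f (b i) * inner ℂ (b i) f = ((‖inner ℂ (b i) f‖ ^ 2 : ℝ) : ℂ) := by
      rw [← inner_conj_symm f (b i), ← Complex.normSq_eq_conj_mul_self, Complex.normSq_eq_norm_sq]
    rw [e1, Complex.ofReal_mul, ← e2]
    ring
  rw [h1, Complex.re_sum]
  simp only [Complex.ofReal_re]

/-- Ky Fan's variational principle -/
lemma kyfan (T : H →ₗ[ℂ] H) (hT : T.IsSymmetric) {N : ℕ} (hn : Module.finrank ℂ H = N)
    {t : ℕ} (v : Fin t → H) (hv : Orthonormal ℂ v) :
    ∑ b, (inner ℂ (v b) (T (v b))).re ≤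
      ∑ j : Fin N, if j.1 < t then hT.eigenvalues hn j else 0 := by
  have htN : t ≤ N := by
    have := hv.linearIndependent.fintype_card_le_finrank
    rwa [Fintype.card_fin, hn] at this
  rcases Nat.eq_zero_or_pos t with h0 | hpos
  · subst h0; simp
  set u := hT.eigenvectorBasis hn
  set l := hT.eigenvalues hn
  let c : Fin N → ℝ := fun j => ∑ b, ‖inner ℂ (u j) (v b)‖ ^ 2
  have h1 : ∑ b, (inner ℂ (v b) (T (v b))).re = ∑ j, l j * c j := by
    rw [Finset.sum_congr rfl fun b _ => quad_expand T hT hn (v b), Finset.sum_comm]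
    exact Finset.sum_congr rfl fun j _ => (Finset.mul_sum _ _ _).symm
  have hc0 : ∀ j, 0 ≤ c j := fun j => Finset.sum_nonneg fun b _ => by positivity
  have hc1 : ∀ j, c j ≤ 1 := by
    intro j
    have h2 := hv.sum_inner_products_le (u j) (s := univ)
    rw [u.orthonormal.1 j, one_pow] at h2
    refine le_trans (le_of_eq ?_) h2
    refine Finset.sum_congr rfl fun b _ => ?_
    rw [norm_inner_symm]
  have hcs : ∑ j, c j = t := by
    rw [Finset.sum_comm]
    have h2 : ∀ b, ∑ j, ‖inner ℂ (u j) (v b)‖ ^ 2 = 1 := by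
      intro b
      rw [u.sum_sq_norm_inner_right, hv.1 b, one_pow]
    rw [Finset.sum_congr rfl fun b _ => h2 b]
    simp
  let θ : ℝ := l ⟨t - 1, by omega⟩
  have hanti : Antitone l := hT.eigenvalues_antitone hn
  have h3 : ∀ j : Fin N, l j * c j ≤ (if j.1 < t then l j else 0) +
      θ * (c j - if j.1 < t then 1 else 0) := by
    intro j
    split_ifs with hj
    · have h4 : θ ≤ l j := hanti (Fin.mk_le_mk.2 (by omega) : j ≤ ⟨t - 1, by omega⟩)
      nlinarith [hc1 j]
    · have h4 : l j ≤ θ := hanti (by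
        show t - 1 ≤ j.1
        omega)
      nlinarith [hc0 j]
  have h5 : ∑ j : Fin N, (if j.1 < t then (1 : ℝ) else 0) = t := by
    rw [← Finset.sum_filter, Finset.sum_const, nsmul_eq_mul, mul_one]
    norm_cast
    have e2 : (univ.filter fun j : Fin N => j.1 < t) =
        (Finset.univ : Finset (Fin t)).map ⟨Fin.castLE htN, Fin.castLE_injective htN⟩ := by
      ext j
      simp only [mem_filter, mem_univ, true_and, mem_map, Function.Embedding.coeFn_mk]
      constructor
      · intro h; exact ⟨⟨j.1, h⟩, rfl⟩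
      · rintro ⟨i, rfl⟩; exact i.2
    rw [e2, Finset.card_map, Finset.card_univ, Fintype.card_fin]
  rw [h1]
  calc ∑ j, l j * c j ≤ ∑ j : Fin N, ((if j.1 < t then l j else 0) +
      θ * (c j - if j.1 < t then 1 else 0)) := Finset.sum_le_sum fun j _ => h3 j
    _ = (∑ j : Fin N, if j.1 < t then l j else 0) + θ * (∑ j, c j -
        ∑ j : Fin N, (if j.1 < t then (1 : ℝ) else 0)) := by
        rw [Finset.sum_add_distrib, ← Finset.mul_sum, Finset.sum_sub_distrib]
    _ = _ := by rw [hcs, h5, sub_self, mul_zero, add_zero]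

/-- the sum of the `t` largest eigenvalues is attained by eigenvectors -/
lemma kyfan_attained (T : H →ₗ[ℂ] H) (hT : T.IsSymmetric) {N : ℕ} (hn : Module.finrank ℂ H = N)
    {t : ℕ} (htN : t ≤ N) :
    ∃ v : Fin t → H, Orthonormal ℂ v ∧ ∑ b, (inner ℂ (v b) (T (v b))).re =
      ∑ j : Fin N, if j.1 < t then hT.eigenvalues hn j else 0 := by
  refine ⟨fun b => hT.eigenvectorBasis hn (Fin.castLE htN b),
    (hT.eigenvectorBasis hn).orthonormal.comp _ (Fin.castLE_injective htN), ?_⟩
  rw [← Finset.sum_filter]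
  have e2 : (univ.filter fun j : Fin N => j.1 < t) =
      (Finset.univ : Finset (Fin t)).map ⟨Fin.castLE htN, Fin.castLE_injective htN⟩ := by
    ext j
    simp only [mem_filter, mem_univ, true_and, mem_map, Function.Embedding.coeFn_mk]
    constructor
    · intro h; exact ⟨⟨j.1, h⟩, rfl⟩
    · rintro ⟨i, rfl⟩; exact i.2
  rw [e2, Finset.sum_map]
  refine Finset.sum_congr rfl fun b _ => ?_
  rw [hT.apply_eigenvectorBasis hn, inner_smul_right, inner_self_eq_norm_sq_to_K,
    (hT.eigenvectorBasis hn).orthonormal.1]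
  simp

end KyFan

end Pool.Agent.T9h71.KF
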