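import Mathlib
import Pool.Agent.T9h71.KF.Final

set_option autoImplicit false
set_option linter.unusedSectionVars false

namespace Pool.Agent.T9h71.KF

open Finset Matrix
open scoped Kronecker ComplexOrder

/-- the eigenvalues in non-increasing order, indexed by `Fin m` -/
noncomputable def ev {m : ℕ} {A : Matrix (Fin m) (Fin m) ℂ} (hA : A.IsHermitian) (i : Fin m) : ℝ :=
  hA.eigenvalues₀ (Fin.cast (Fintype.card_fin m).symm i)

lemma ev_antitone {m : ℕ} {A : Matrix (Fin m) (Fin m) ℂ} (hA : A.IsHermitian) :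
    Antitone (ev hA) := fun _ _ hij => hA.eigenvalues₀_antitone hij

/-- the reindexing of the eigenvalues -/
noncomputable def eq0 (m : ℕ) : Fin m ≃ Fin m :=
  (finCongr (Fintype.card_fin m).symm).trans (Fintype.equivOfCardEq (Fintype.card_fin _))

lemma ev_eq {m : ℕ} {A : Matrix (Fin m) (Fin m) ℂ} (hA : A.IsHermitian) (i : Fin m) :
    ev hA i = hA.eigenvalues (eq0 m i) := by
  unfold ev Matrix.IsHermitian.eigenvalues eq0
  rw [Equiv.trans_apply, Equiv.symm_apply_apply]
  rfl

lemma ev_nonneg {m : ℕ} {A : Matrix (Fin m) (Fin m) ℂ} (hA : A.PosSemidef) (i : Fin m) :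
    0 ≤ ev hA.1 i := by
  rw [ev_eq]
  exact hA.eigenvalues_nonneg _

lemma decomp {m : ℕ} {A : Matrix (Fin m) (Fin m) ℂ} (hA : A.IsHermitian) :
    ∃ U : Matrix (Fin m) (Fin m) ℂ, Uᴴ * U = 1 ∧
      A = U * Matrix.diagonal (fun i => ((ev hA i : ℝ) : ℂ)) * Uᴴ := by
  set U₀ : Matrix (Fin m) (Fin m) ℂ := (hA.eigenvectorUnitary : Matrix (Fin m) (Fin m) ℂ)
  have h1 : U₀ᴴ * U₀ = 1 := by
    have := Unitary.coe_star_mul_self hA.eigenvectorUnitary
    exact this
  have h2 : A = U₀ * Matrix.diagonal (RCLike.ofReal ∘ hA.eigenvalues) * U₀ᴴ := by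
    have := hA.spectral_theorem
    rw [Unitary.conjStarAlgAut_apply] at this
    exact this
  refine ⟨U₀.submatrix id (eq0 m), ?_, ?_⟩
  · rw [Matrix.conjTranspose_submatrix, ← Matrix.submatrix_mul (e₂ := id) _ _ _ _
      Function.bijective_id, h1]
    ext i j
    simp [Matrix.one_apply]
  · have h3 : Matrix.diagonal (fun i => ((ev hA i : ℝ) : ℂ)) =
        (Matrix.diagonal (RCLike.ofReal ∘ hA.eigenvalues) :
          Matrix (Fin m) (Fin m) ℂ).submatrix (eq0 m) (eq0 m) := by
      rw [Matrix.submatrix_diagonal_equiv]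
      congr 1
      ext i
      simp only [Function.comp, ev_eq]
      rfl
    rw [h3, Matrix.conjTranspose_submatrix, Matrix.submatrix_mul_equiv,
      Matrix.submatrix_mul_equiv, ← h2, Matrix.submatrix_id_id]

/-- extension by zero -/
noncomputable def ext0 {m : ℕ} (a : Fin m → ℝ) (k : ℕ) : ℝ := if h : k < m then a ⟨k, h⟩ else 0

/-- layer weights -/
noncomputable def lw {m : ℕ} (a : Fin m → ℝ) (I : Fin m) : ℝ := ext0 a I.1 - ext0 a (I.1 + 1)

lemma lw_nonneg {m : ℕ} (a : Fin m → ℝ) (ha : Antitone a) (h0 : ∀ i, 0 ≤ a i) (I : Fin m) :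
    0 ≤ lw a I := by
  unfold lw ext0
  rw [dif_pos I.2]
  split_ifs with h
  · have : a ⟨I.1 + 1, h⟩ ≤ a ⟨I.1, I.2⟩ := ha (by
      show I.1 ≤ I.1 + 1
      omega)
    linarith
  · simpa using h0 ⟨I.1, I.2⟩

lemma lw_sum {m : ℕ} (a : Fin m → ℝ) (i : Fin m) :
    ∑ I : Fin m, (if i.1 < I.1 + 1 then lw a I else 0) = a i := by
  have h1 : ∀ k : ℕ, ∑ I ∈ Finset.range k, (if i.1 < I + 1 then ext0 a I - ext0 a (I + 1) else 0) =
      if i.1 < k then ext0 a i.1 - ext0 a k else 0 := by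
    intro k
    induction k with
    | zero => simp
    | succ k ih =>
      rw [Finset.sum_range_succ, ih]
      by_cases h1 : i.1 < k
      · rw [if_pos h1, if_pos (by omega), if_pos (by omega)]
        ring
      · by_cases h2 : i.1 = k
        · rw [if_neg h1, if_pos (by omega), if_pos (by omega), h2]
          ring
        · rw [if_neg h1, if_neg (by omega), if_neg (by omega)]
          ring
  have h2 := h1 m
  rw [if_pos i.2, Finset.sum_range] at h2
  have h3 : ext0 a i.1 = a i := by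
    unfold ext0
    rw [dif_pos i.2]
  have h4 : ext0 a m = 0 := by
    unfold ext0
    rw [dif_neg (lt_irrefl m)]
  rw [h3, h4, sub_zero] at h2
  exact h2

lemma diag_layers {m : ℕ} (a : Fin m → ℝ) :
    Matrix.diagonal (fun i => ((a i : ℝ) : ℂ)) =
      ∑ I : Fin m, ((lw a I : ℝ) : ℂ) • pr m (I.1 + 1) := by
  ext i j
  rw [Matrix.sum_apply]
  by_cases hij : i = j
  · subst hij
    rw [Matrix.diagonal_apply_eq, ← lw_sum a i]
    push_cast
    refine Finset.sum_congr rfl fun I _ => ?_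
    unfold pr
    rw [Matrix.smul_apply, Matrix.diagonal_apply_eq, smul_eq_mul]
    split_ifs <;> simp
  · rw [Matrix.diagonal_apply_ne _ hij]
    symm
    refine Finset.sum_eq_zero fun I _ => ?_
    unfold pr
    rw [Matrix.smul_apply, Matrix.diagonal_apply_ne _ hij, smul_zero]

/-- the main variational bound -/
theorem main_bound {m n t : ℕ} {R : Type} [Fintype R] [DecidableEq R]
    (A : R → Matrix (Fin m) (Fin m) ℂ) (B : R → Matrix (Fin n) (Fin n) ℂ)
    (hA : ∀ r, (A r).PosSemidef) (hB : ∀ r, (B r).PosSemidef) (h : ℝ)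
    (hT : ∀ T : Finset (Fin m × Fin n), T.card = t →
      ∑ p ∈ T, ∑ r, ev (hA r).1 p.1 * ev (hB r).1 p.2 ≤ h)
    (v : Fin t → EuclideanSpace ℂ (Fin m × Fin n)) (hv : Orthonormal ℂ v) :
    ∑ b, (inner ℂ (v b) (Matrix.toEuclideanLin (∑ r, A r ⊗ₖ B r) (v b))).re ≤ h := by
  classical
  choose U hU hAU using fun r => decomp (hA r).1
  choose V hV hBV using fun r => decomp (hB r).1
  -- Slater determinant
  have hv' : ∀ a b, star (v a).ofLp ⬝ᵥ (v b).ofLp = if a = b then 1 else 0 := by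
    intro a b
    have h1 := orthonormal_iff_ite.1 hv a b
    rw [EuclideanSpace.inner_eq_star_dotProduct] at h1
    rw [dotProduct_comm]
    exact h1
  obtain ⟨w, hw1, hw2, hw3⟩ := exists_slater (fun b => (v b).ofLp) hv'
  -- the weighted family
  let X : R × Fin m × Fin n → Matrix (Fin m × Fin n) (Fin m × Fin n) ℂ := fun q =>
    (U q.1 * pr m (q.2.1.1 + 1) * (U q.1)ᴴ) ⊗ₖ (V q.1 * pr n (q.2.2.1 + 1) * (V q.1)ᴴ)
  let W : R × Fin m × Fin n → ℝ := fun q =>
    lw (ev (hA q.1).1) q.2.1 * lw (ev (hB q.1).1) q.2.2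
  have hW : ∀ q, 0 ≤ W q := fun q =>
    mul_nonneg (lw_nonneg _ (ev_antitone _) (ev_nonneg (hA q.1)) _)
      (lw_nonneg _ (ev_antitone _) (ev_nonneg (hB q.1)) _)
  have hM : ∑ r, A r ⊗ₖ B r = ∑ q, ((W q : ℝ) : ℂ) • X q := by
    rw [Fintype.sum_prod_type]
    refine Finset.sum_congr rfl fun r _ => ?_
    rw [Fintype.sum_prod_type]
    have e1 : A r = ∑ I : Fin m, ((lw (ev (hA r).1) I : ℝ) : ℂ) • (U r * pr m (I.1 + 1) * (U r)ᴴ) := by
      conv_lhs => rw [hAU r, diag_layers]
      rw [Finset.mul_sum, Finset.sum_mul]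
      refine Finset.sum_congr rfl fun I _ => ?_
      rw [mul_smul_comm, smul_mul_assoc]
    have e2 : B r = ∑ K : Fin n, ((lw (ev (hB r).1) K : ℝ) : ℂ) • (V r * pr n (K.1 + 1) * (V r)ᴴ) := by
      conv_lhs => rw [hBV r, diag_layers]
      rw [Finset.mul_sum, Finset.sum_mul]
      refine Finset.sum_congr rfl fun I _ => ?_
      rw [mul_smul_comm, smul_mul_assoc]
    ext p q
    rw [Matrix.kroneckerMap_apply, Matrix.sum_apply, e1, e2, Matrix.sum_apply, Matrix.sum_apply,
      Finset.sum_mul_sum]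
    refine Finset.sum_congr rfl fun I _ => ?_
    rw [Matrix.sum_apply]
    refine Finset.sum_congr rfl fun K _ => ?_
    simp only [X, W, Matrix.smul_apply, Matrix.kroneckerMap_apply, smul_eq_mul]
    push_cast
    ring
  have hcore := core (t := t) W hW (fun q => q.2.1.1 + 1) (fun q => q.2.2.1 + 1) (fun q => U q.1)
    (fun q => V q.1) (fun q => hU q.1) (fun q => hV q.1) h ?_ w hw1
  · have h1 : ∀ q, ∑ a, (inner ℂ w (op (Function.update (fun _ => 1) a (X q)) w)).re =
        (t.factorial : ℝ) * (∑ b, (star (v b).ofLp ⬝ᵥ (X q *ᵥ (v b).ofLp))).re := by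
      intro q
      rw [← Complex.re_sum, hw3 (X q)]
      have : ((t.factorial : ℕ) : ℂ) = (((t.factorial : ℕ) : ℝ) : ℂ) := by push_cast; rfl
      rw [this, Complex.re_ofReal_mul]
    have h2 : ∑ q, W q * ∑ a, (inner ℂ w (op (Function.update (fun _ => 1) a (X q)) w)).re =
        (t.factorial : ℝ) * ∑ b, (inner ℂ (v b)
          (Matrix.toEuclideanLin (∑ r, A r ⊗ₖ B r) (v b))).re := by
      have h3 : ∀ b, (inner ℂ (v b) (Matrix.toEuclideanLin (∑ r, A r ⊗ₖ B r) (v b))).re =
          ∑ q, W q * (star (v b).ofLp ⬝ᵥ (X q *ᵥ (v b).ofLp)).re := by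
        intro b
        rw [EuclideanSpace.inner_eq_star_dotProduct, show ∀ (M : Matrix (Fin m × Fin n) (Fin m × Fin n) ℂ)
          (y : EuclideanSpace ℂ (Fin m × Fin n)), (Matrix.toEuclideanLin M y).ofLp = M *ᵥ y.ofLp
          from fun _ _ => rfl, hM,
          dotProduct_comm, Matrix.sum_mulVec, dotProduct_sum, Complex.re_sum]
        refine Finset.sum_congr rfl fun q _ => ?_
        rw [Matrix.smul_mulVec, dotProduct_smul, smul_eq_mul, Complex.re_ofReal_mul]
      rw [Finset.sum_congr rfl fun b _ => h3 b, Finset.sum_comm, Finset.mul_sum]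
      refine Finset.sum_congr rfl fun q _ => ?_
      rw [h1 q, Complex.re_sum, ← Finset.mul_sum]
      ring
    have h4 : (t.factorial : ℝ) * ∑ b, (inner ℂ (v b)
          (Matrix.toEuclideanLin (∑ r, A r ⊗ₖ B r) (v b))).re ≤ h * (t.factorial : ℝ) := by
      rw [← h2, ← hw2]
      exact hcore
    have h5 : (0 : ℝ) < (t.factorial : ℝ) := by
      exact_mod_cast Nat.factorial_pos t
    rw [mul_comm h] at h4
    exact le_of_mul_le_mul_left h4 h5
  · intro T hTc
    refine le_trans (le_of_eq ?_) (hT T hTc)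
    have h1 : ∀ q : R × Fin m × Fin n, W q *
        ((T.filter fun p => p.1.1 < q.2.1.1 + 1 ∧ p.2.1 < q.2.2.1 + 1).card : ℝ) =
        ∑ p ∈ T, (if p.1.1 < q.2.1.1 + 1 then lw (ev (hA q.1).1) q.2.1 else 0) *
          (if p.2.1 < q.2.2.1 + 1 then lw (ev (hB q.1).1) q.2.2 else 0) := by
      intro q
      rw [Finset.card_filter]
      push_cast
      rw [Finset.mul_sum]
      refine Finset.sum_congr rfl fun p _ => ?_
      simp only [W]
      by_cases h1 : p.1.1 < q.2.1.1 + 1
      · by_cases h2 : p.2.1 < q.2.2.1 + 1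
        · rw [if_pos ⟨h1, h2⟩, if_pos h1, if_pos h2, mul_one]
        · rw [if_neg (fun h => h2 h.2), if_neg h2, mul_zero, mul_zero]
      · rw [if_neg (fun h => h1 h.1), if_neg h1, mul_zero, zero_mul]
    rw [Finset.sum_congr rfl fun q _ => h1 q, Finset.sum_comm]
    refine Finset.sum_congr rfl fun p _ => ?_
    rw [Fintype.sum_prod_type]
    refine Finset.sum_congr rfl fun r _ => ?_
    rw [Fintype.sum_prod_type]
    have h2 := Finset.sum_mul_sum univ univ
      (fun x : Fin m => if p.1.1 < x.1 + 1 then lw (ev (hA r).1) x else 0)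
      (fun y : Fin n => if p.2.1 < y.1 + 1 then lw (ev (hB r).1) y else 0)
    rw [lw_sum, lw_sum] at h2
    exact h2.symm

end Pool.Agent.T9h71.KF
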